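import Mathlib

/-!
Groups determined by finite similarity structures embed in Thompson's group V: definitions.
-/

set_option autoImplicit false

namespace Pool.Helper4.FSS

open Set

/-! ### Thompson's group V -/

/-- `u` is a finite complete prefix code over `{0,1}`: every infinite binary sequence has
exactly one of the words `u i` as a prefix. -/
def IsCode {k : ℕ} (u : Fin k → List Bool) : Prop :=
  ∀ η : Stream' Bool, ∃! i : Fin k, ∃ ξ : Stream' Bool, η = u i ++ₛ ξ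

/-- `f` is an element of Thompson's group `V = G_{2,1}`: for two finite complete prefix codes
`u`, `v` of the same size it maps `u i ξ` to `v i ξ` for all `i` and all infinite `ξ`. -/
def InV (f : Equiv.Perm (Stream' Bool)) : Prop :=
  ∃ (k : ℕ) (u v : Fin k → List Bool), IsCode u ∧ IsCode v ∧
    ∀ (i : Fin k) (ξ : Stream' Bool), f (u i ++ₛ ξ) = v i ++ₛ ξ

/-- Uniform depth form of membership in `V`. -/
def InV' (f : Stream' Bool → Stream' Bool) : Prop :=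
  ∃ N : ℕ, ∀ w : List Bool, w.length = N → ∃ v : List Bool, ∀ ξ : Stream' Bool,
    f (w ++ₛ ξ) = v ++ₛ ξ

/-! ### The set level structure -/

/-- A tree of nodes (balls) with point sets, children and finite sets of bijections. -/
structure Sys (S : Type*) (N : Type*) where
  root : N
  pts : N → Set S
  ch : N → Set N
  sim : N → N → Set (S → S)

variable {S : Type*} {N : Type*}

/-- nodes of level `n` -/
def Sys.lev (X : Sys S N) : ℕ → Set N
  | 0 => {X.root}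
  | n + 1 => {C | ∃ B ∈ X.lev n, C ∈ X.ch B}

/-- node at some level -/
def Sys.IsNode (X : Sys S N) (B : N) : Prop := ∃ n, B ∈ X.lev n

/-- The axioms. -/
structure Sys.Good (X : Sys S N) : Prop where
  root_pts : X.pts X.root = univ
  pts_ne : ∀ B, X.IsNode B → (X.pts B).Nonempty
  ch_sub : ∀ B, X.IsNode B → ∀ C ∈ X.ch B, X.pts C ⊆ X.pts B
  ch_part : ∀ B, X.IsNode B → ∀ x ∈ X.pts B, ∃! C, C ∈ X.ch B ∧ x ∈ X.pts C
  ch_fin : ∀ B, X.IsNode B → (X.ch B).Finite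
  ch_loop : ∀ B, X.IsNode B → ∀ C ∈ X.ch B, X.pts C = X.pts B → C = B
  maps : ∀ B B', X.IsNode B → X.IsNode B' → ∀ h ∈ X.sim B B', BijOn h (X.pts B) (X.pts B')
  fin : ∀ B, X.IsNode B → (X.sim B B).Finite
  one : ∀ B, X.IsNode B → ∃ h ∈ X.sim B B, ∀ x ∈ X.pts B, h x = x
  inv : ∀ B B', X.IsNode B → X.IsNode B' → ∀ h ∈ X.sim B B', ∃ k ∈ X.sim B' B,
    ∀ x ∈ X.pts B, k (h x) = x
  comp : ∀ B B' B'', X.IsNode B → X.IsNode B' → X.IsNode B'' → ∀ h ∈ X.sim B B',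
    ∀ k ∈ X.sim B' B'', ∃ l ∈ X.sim B B'', ∀ x ∈ X.pts B, l x = k (h x)
  res : ∀ B B', X.IsNode B → X.IsNode B' → ∀ h ∈ X.sim B B', ∀ C ∈ X.ch B,
    ∃ C' ∈ X.ch B', ∃ k ∈ X.sim C C', ∀ x ∈ X.pts C, k x = h x

/-- the permutation `g` of `S` is locally given by `sim` -/
def Sys.Loc (X : Sys S N) (g : S → S) : Prop :=
  ∃ n, ∀ B ∈ X.lev n, ∃ m, ∃ B' ∈ X.lev m, ∃ h ∈ X.sim B B', ∀ x ∈ X.pts B, g x = h x

/-! ### Natural data -/

/-- The natural data on a good system: finite sets of marked points, the parent map of marked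
points, and the binary labels. -/
structure Nat0 (X : Sys S N) where
  Q : N → Set S
  pa : N → S → S
  c : N → S → List Bool
  Q_sub : ∀ B, X.IsNode B → Q B ⊆ X.pts B
  Q_fin : ∀ B, X.IsNode B → (Q B).Finite
  Q_ne : ∀ B, X.IsNode B → (Q B).Nonempty
  Q_nat : ∀ B B', X.IsNode B → X.IsNode B' → ∀ h ∈ X.sim B B', ∀ q ∈ Q B, h q ∈ Q B'
  Q_faith : ∀ B, X.IsNode B → ∀ h ∈ X.sim B B, (∀ q ∈ Q B, h q = q) → ∀ x ∈ X.pts B, h x = x
  pa_mem : ∀ B, X.IsNode B → ∀ C ∈ X.ch B, ∀ r ∈ Q C, pa B r ∈ Q B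
  pa_nat : ∀ B B', X.IsNode B → X.IsNode B' → ∀ h ∈ X.sim B B', ∀ C ∈ X.ch B, ∀ r ∈ Q C,
    pa B' (h r) = h (pa B r)
  pa_loop : ∀ B, X.IsNode B → B ∈ X.ch B → ∀ r ∈ Q B, pa B r = r
  c_nat : ∀ B B', X.IsNode B → X.IsNode B' → ∀ h ∈ X.sim B B', ∀ C ∈ X.ch B, ∀ r ∈ Q C,
    c B' (h r) = c B r
  c_part : ∀ B, X.IsNode B → ∀ q ∈ Q B, ∀ η : Stream' Bool,
    ∃! r, (∃ C ∈ X.ch B, r ∈ Q C) ∧ pa B r = q ∧ ∃ ξ, η = c B r ++ₛ ξ

end Pool.Helper4.FSS
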