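import Mathlib
import Pool.Agent.Helper4.FSS.Defs

/-!
Core of the embedding in Thompson's group V.
-/

set_option autoImplicit false

namespace Pool.Helper4.FSS

open Set

variable {S N : Type*} {X : Sys S N}

theorem isNode_of_ch {B C : N} (hB : X.IsNode B) (hC : C ∈ X.ch B) : X.IsNode C := by
  obtain ⟨n, hn⟩ := hB
  exact ⟨n + 1, B, hn, hC⟩

theorem lev_part (hX : X.Good) (n : ℕ) (x : S) : ∃! B, B ∈ X.lev n ∧ x ∈ X.pts B := by
  induction n with
  | zero =>
    refine ⟨X.root, ⟨rfl, ?_⟩, ?_⟩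
    · simp [hX.root_pts]
    · rintro B ⟨hB, -⟩
      exact hB
  | succ n ih =>
    obtain ⟨B, ⟨hB, hx⟩, hu⟩ := ih
    obtain ⟨C, ⟨hC, hxC⟩, hCu⟩ := hX.ch_part B ⟨n, hB⟩ x hx
    refine ⟨C, ⟨⟨B, hB, hC⟩, hxC⟩, ?_⟩
    rintro C' ⟨⟨B', hB', hC'⟩, hx'⟩
    have h1 : B' = B := hu B' ⟨hB', hX.ch_sub B' ⟨n, hB'⟩ C' hC' hx'⟩
    subst h1
    exact hCu C' ⟨hC', hx'⟩

/-- the node of level `n` containing `x` -/
noncomputable def nd (hX : X.Good) (n : ℕ) (x : S) : N := (lev_part hX n x).choose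

theorem nd_lev (hX : X.Good) (n : ℕ) (x : S) : nd hX n x ∈ X.lev n :=
  (lev_part hX n x).choose_spec.1.1

theorem nd_pts (hX : X.Good) (n : ℕ) (x : S) : x ∈ X.pts (nd hX n x) :=
  (lev_part hX n x).choose_spec.1.2

theorem nd_node (hX : X.Good) (n : ℕ) (x : S) : X.IsNode (nd hX n x) := ⟨n, nd_lev hX n x⟩

theorem nd_eq (hX : X.Good) {n : ℕ} {x : S} {B : N} (hB : B ∈ X.lev n) (hx : x ∈ X.pts B) :
    nd hX n x = B :=
  ((lev_part hX n x).choose_spec.2 B ⟨hB, hx⟩).symm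

theorem nd_congr (hX : X.Good) {n : ℕ} {x y : S} (h : y ∈ X.pts (nd hX n x)) :
    nd hX n y = nd hX n x := nd_eq hX (nd_lev hX n x) h

theorem nd_zero (hX : X.Good) (x : S) : nd hX 0 x = X.root := nd_lev hX 0 x

theorem nd_succ (hX : X.Good) (n : ℕ) (x : S) : nd hX (n + 1) x ∈ X.ch (nd hX n x) := by
  obtain ⟨C, ⟨hC, hxC⟩, -⟩ := hX.ch_part _ (nd_node hX n x) x (nd_pts hX n x)
  have : nd hX (n + 1) x = C := nd_eq hX ⟨_, nd_lev hX n x, hC⟩ hxC
  rw [this]; exact hC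

theorem nd_ch (hX : X.Good) {n : ℕ} {x : S} {B C : N} (hB : B ∈ X.lev n) (hC : C ∈ X.ch B)
    (hx : x ∈ X.pts C) : nd hX n x = B ∧ nd hX (n + 1) x = C :=
  ⟨nd_eq hX hB (hX.ch_sub B ⟨n, hB⟩ C hC hx), nd_eq hX ⟨B, hB, hC⟩ hx⟩

theorem pts_step (hX : X.Good) (n : ℕ) (x : S) :
    X.pts (nd hX (n + 1) x) ⊆ X.pts (nd hX n x) :=
  hX.ch_sub _ (nd_node hX n x) _ (nd_succ hX n x)

theorem pts_anti (hX : X.Good) {n m : ℕ} (h : n ≤ m) (x : S) :
    X.pts (nd hX m x) ⊆ X.pts (nd hX n x) := by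
  induction m, h using Nat.le_induction with
  | base => exact subset_rfl
  | succ m _ ih => exact (pts_step hX m x).trans ih

/-- active points of level `n` -/
def Act (hX : X.Good) (D : Nat0 X) (n : ℕ) : Set S := {q | q ∈ D.Q (nd hX n q)}

noncomputable def par (hX : X.Good) (D : Nat0 X) (n : ℕ) (r : S) : S := D.pa (nd hX n r) r

noncomputable def lab (hX : X.Good) (D : Nat0 X) (n : ℕ) (r : S) : List Bool := D.c (nd hX n r) r

theorem par_mem (hX : X.Good) (D : Nat0 X) {n : ℕ} {r : S} (hr : r ∈ Act hX D (n + 1)) :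
    par hX D n r ∈ D.Q (nd hX n r) :=
  D.pa_mem _ (nd_node hX n r) _ (nd_succ hX n r) r hr

theorem par_nd (hX : X.Good) (D : Nat0 X) {n : ℕ} {r : S} (hr : r ∈ Act hX D (n + 1)) :
    nd hX n (par hX D n r) = nd hX n r :=
  nd_congr hX (D.Q_sub _ (nd_node hX n r) (par_mem hX D hr))

theorem par_act (hX : X.Good) (D : Nat0 X) {n : ℕ} {r : S} (hr : r ∈ Act hX D (n + 1)) :
    par hX D n r ∈ Act hX D n := by
  show par hX D n r ∈ D.Q (nd hX n (par hX D n r))
  rw [par_nd hX D hr]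
  exact par_mem hX D hr

/-- the words -/
noncomputable def om (hX : X.Good) (D : Nat0 X) (rc : S → List Bool) : ℕ → S → List Bool
  | 0, r => rc r
  | n + 1, r => om hX D rc n (par hX D n r) ++ lab hX D n r

/-- property of the root code -/
def RootCode (D : Nat0 X) (rc : S → List Bool) : Prop :=
  ∀ η : Stream' Bool, ∃! q, q ∈ D.Q X.root ∧ ∃ ξ, η = rc q ++ₛ ξ

theorem om_part (hX : X.Good) (D : Nat0 X) {rc : S → List Bool} (hrc : RootCode D rc) (n : ℕ)
    (η : Stream' Bool) : ∃! q, q ∈ Act hX D n ∧ ∃ ξ, η = om hX D rc n q ++ₛ ξ := by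
  induction n with
  | zero =>
    obtain ⟨q, ⟨hq, ξ, hξ⟩, hu⟩ := hrc η
    refine ⟨q, ⟨?_, ξ, hξ⟩, ?_⟩
    · show q ∈ D.Q (nd hX 0 q)
      rw [nd_zero]; exact hq
    · rintro q' ⟨hq', hξ'⟩
      apply hu q' ⟨?_, hξ'⟩
      have : q' ∈ D.Q (nd hX 0 q') := hq'
      rwa [nd_zero] at this
  | succ n ih =>
    obtain ⟨q, ⟨hq, ξ, hξ⟩, hu⟩ := ih
    have hBn := nd_node hX n q
    obtain ⟨r, ⟨⟨C, hC, hrC⟩, hpa, ξ', hξ'⟩, hru⟩ := D.c_part _ hBn q hq ξ
    have hrp : r ∈ X.pts C := D.Q_sub C (isNode_of_ch hBn hC) hrC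
    obtain ⟨hn1, hn2⟩ := nd_ch hX (nd_lev hX n q) hC hrp
    refine ⟨r, ⟨?_, ξ', ?_⟩, ?_⟩
    · show r ∈ D.Q (nd hX (n + 1) r)
      rw [hn2]; exact hrC
    · have h1 : par hX D n r = q := by
        unfold par; rw [hn1]; exact hpa
      have h2 : lab hX D n r = D.c (nd hX n q) r := by
        unfold lab; rw [hn1]
      show η = (om hX D rc n (par hX D n r) ++ lab hX D n r) ++ₛ ξ'
      rw [h1, h2, Stream'.append_append_stream, ← hξ', ← hξ]
    · rintro r' ⟨hr', ξ'', hξ''⟩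
      have e1 : η = om hX D rc n (par hX D n r') ++ₛ (lab hX D n r' ++ₛ ξ'') := by
        rw [← Stream'.append_append_stream]; exact hξ''
      have e2 : par hX D n r' = q := hu _ ⟨par_act hX D hr', _, e1⟩
      have e3 : nd hX n r' = nd hX n q := by
        rw [← e2, par_nd hX D hr']
      apply hru r'
      refine ⟨⟨nd hX (n + 1) r', ?_, hr'⟩, ?_, ξ'', ?_⟩
      · rw [← e3]; exact nd_succ hX n r'
      · rw [← e3]; exact e2
      · rw [e2, hξ] at e1
        have := Stream'.append_right_injective _ _ _ e1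
        rw [this]; unfold lab; rw [e3]

/-- arrow given by `g` at the node of level `n` of `x` to a node of level `m` -/
def G (hX : X.Good) (g : S → S) (n : ℕ) (x : S) (m : ℕ) : Prop :=
  ∃ h ∈ X.sim (nd hX n x) (nd hX m (g x)), ∀ y ∈ X.pts (nd hX n x), g y = h y

theorem G_congr (hX : X.Good) {g : S → S} {n m : ℕ} {x y : S} (hG : G hX g n x m)
    (hy : y ∈ X.pts (nd hX n x)) : G hX g n y m := by
  obtain ⟨h, hh, he⟩ := hG
  have e1 : nd hX n y = nd hX n x := nd_congr hX hy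
  have e2 : nd hX m (g y) = nd hX m (g x) := by
    apply nd_congr
    rw [he y hy]
    exact (hX.maps _ _ (nd_node hX _ _) (nd_node hX _ _) h hh).mapsTo hy
  refine ⟨h, ?_, ?_⟩
  · rw [e1, e2]; exact hh
  · rw [e1]; exact he

theorem G_step (hX : X.Good) {g : S → S} {n m : ℕ} {x : S} (hG : G hX g n x m) :
    G hX g (n + 1) x (m + 1) := by
  obtain ⟨h, hh, he⟩ := hG
  obtain ⟨C', hC', k, hk, hke⟩ := hX.res _ _ (nd_node hX _ _) (nd_node hX _ _) h hh _
    (nd_succ hX n x)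
  have h1 : g x = k x := by rw [he x (nd_pts hX n x), hke x (nd_pts hX _ x)]
  have h2 : g x ∈ X.pts C' := by
    rw [h1]
    exact (hX.maps _ _ (nd_node hX _ _) (isNode_of_ch (nd_node hX _ _) hC') k hk).mapsTo
      (nd_pts hX _ x)
  have h3 : nd hX (m + 1) (g x) = C' := (nd_ch hX (nd_lev hX m (g x)) hC' h2).2
  refine ⟨k, ?_, ?_⟩
  · rw [h3]; exact hk
  · intro y hy
    rw [he y (pts_step hX n x hy), hke y hy]

theorem G_act (hX : X.Good) (D : Nat0 X) {g : S → S} {n m : ℕ} {q : S} (hG : G hX g n q m)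
    (hq : q ∈ Act hX D n) : g q ∈ Act hX D m := by
  obtain ⟨h, hh, he⟩ := hG
  show g q ∈ D.Q (nd hX m (g q))
  have := D.Q_nat _ _ (nd_node hX _ _) (nd_node hX _ _) h hh q hq
  rwa [← he q (nd_pts hX n q)] at this

theorem G_par (hX : X.Good) (D : Nat0 X) {g : S → S} {n m : ℕ} {r : S} (hG : G hX g n r m)
    (hr : r ∈ Act hX D (n + 1)) :
    par hX D m (g r) = g (par hX D n r) ∧ lab hX D m (g r) = lab hX D n r := by
  obtain ⟨h, hh, he⟩ := hG
  have e1 : g r = h r := he r (nd_pts hX n r)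
  constructor
  · unfold par
    have := D.pa_nat _ _ (nd_node hX _ _) (nd_node hX _ _) h hh _ (nd_succ hX n r) r hr
    rw [← e1] at this
    rw [this]
    exact (he _ (D.Q_sub _ (nd_node hX n r) (par_mem hX D hr))).symm
  · unfold lab
    have := D.c_nat _ _ (nd_node hX _ _) (nd_node hX _ _) h hh _ (nd_succ hX n r) r hr
    rw [← e1] at this
    exact this

/-- loops do not change the word -/
theorem om_loop (hX : X.Good) (D : Nat0 X) (rc : S → List Bool) {m : ℕ} {z : S}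
    (hz : z ∈ Act hX D m) (h : X.pts (nd hX (m + 1) z) = X.pts (nd hX m z)) :
    nd hX (m + 1) z = nd hX m z ∧ om hX D rc (m + 1) z = om hX D rc m z := by
  have e1 : nd hX (m + 1) z = nd hX m z :=
    hX.ch_loop _ (nd_node hX m z) _ (nd_succ hX m z) h
  refine ⟨e1, ?_⟩
  have hB := nd_node hX m z
  have hBB : nd hX m z ∈ X.ch (nd hX m z) := by
    have := nd_succ hX m z
    rwa [e1] at this
  have hpa : par hX D m z = z := D.pa_loop _ hB hBB z hz
  have hall : ∀ C ∈ X.ch (nd hX m z), C = nd hX m z := by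
    intro C hC
    obtain ⟨x, hx⟩ := hX.pts_ne C (isNode_of_ch hB hC)
    have hxB := hX.ch_sub _ hB C hC hx
    exact (hX.ch_part _ hB x hxB).unique ⟨hC, hx⟩ ⟨hBB, hxB⟩
  have hc : ∀ η : Stream' Bool, ∃ ξ, η = D.c (nd hX m z) z ++ₛ ξ := by
    intro η
    obtain ⟨r, ⟨⟨C, hC, hrC⟩, hpr, hξ⟩, -⟩ := D.c_part _ hB z hz η
    rw [hall C hC] at hrC
    have : r = z := by rw [← D.pa_loop _ hB hBB r hrC]; exact hpr
    rw [this] at hξ
    exact hξ
  have hnil : D.c (nd hX m z) z = [] := by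
    cases hcz : D.c (nd hX m z) z with
    | nil => rfl
    | cons b l =>
      exfalso
      obtain ⟨ξ, hξ⟩ := hc (Stream'.const (!b))
      rw [hcz, Stream'.cons_append_stream] at hξ
      have h0 := congrArg (fun s : Stream' Bool => s.get 0) hξ
      simp only [Stream'.get_const] at h0
      have h1 : (Stream'.cons b (l ++ₛ ξ)).get 0 = b := rfl
      rw [h1] at h0
      cases b <;> simp at h0
  show om hX D rc m (par hX D m z) ++ lab hX D m z = om hX D rc m z
  rw [hpa]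
  unfold lab
  rw [hnil, List.append_nil]

theorem om_level (hX : X.Good) (D : Nat0 X) (rc : S → List Bool) {m : ℕ} {z : S}
    (hz : z ∈ Act hX D m) (k : ℕ) (h : X.pts (nd hX (m + k) z) = X.pts (nd hX m z)) :
    nd hX (m + k) z = nd hX m z ∧ om hX D rc (m + k) z = om hX D rc m z := by
  induction k with
  | zero => exact ⟨rfl, rfl⟩
  | succ k ih =>
    have h1 : X.pts (nd hX (m + k) z) = X.pts (nd hX m z) := by
      apply Subset.antisymm (pts_anti hX (by omega) z)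
      rw [← h]
      exact pts_anti hX (by omega) z
    obtain ⟨i1, i2⟩ := ih h1
    have hz' : z ∈ Act hX D (m + k) := by
      show z ∈ D.Q (nd hX (m + k) z)
      rw [i1]; exact hz
    have h2 : X.pts (nd hX (m + k + 1) z) = X.pts (nd hX (m + k) z) := by
      rw [h1]; exact h
    obtain ⟨j1, j2⟩ := om_loop hX D rc hz' h2
    exact ⟨by rw [← i1]; exact j1, by rw [← i2]; exact j2⟩

theorem om_level' (hX : X.Good) (D : Nat0 X) (rc : S → List Bool) {m m' : ℕ} {z : S}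
    (hz : z ∈ Act hX D m) (hz' : z ∈ Act hX D m')
    (h : X.pts (nd hX m z) = X.pts (nd hX m' z)) :
    nd hX m z = nd hX m' z ∧ om hX D rc m z = om hX D rc m' z := by
  rcases le_total m m' with hle | hle
  · obtain ⟨k, rfl⟩ := Nat.exists_eq_add_of_le hle
    obtain ⟨a, b⟩ := om_level hX D rc hz k h.symm
    exact ⟨a.symm, b.symm⟩
  · obtain ⟨k, rfl⟩ := Nat.exists_eq_add_of_le hle
    exact om_level hX D rc hz' k h

theorem G_unique (hX : X.Good) (D : Nat0 X) (rc : S → List Bool) {g : S → S} {n m m' : ℕ} {q : S}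
    (hG : G hX g n q m) (hG' : G hX g n q m') (hq : q ∈ Act hX D n) :
    om hX D rc m (g q) = om hX D rc m' (g q) := by
  have hz := G_act hX D hG hq
  have hz' := G_act hX D hG' hq
  refine (om_level' hX D rc hz hz' ?_).2
  obtain ⟨h, hh, he⟩ := hG
  obtain ⟨h', hh', he'⟩ := hG'
  have i1 := (hX.maps _ _ (nd_node hX _ _) (nd_node hX _ _) h hh).image_eq
  have i2 := (hX.maps _ _ (nd_node hX _ _) (nd_node hX _ _) h' hh').image_eq
  rw [← i1, ← i2]
  apply image_congr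
  intro y hy
  rw [← he y hy, ← he' y hy]

/-- descent -/
theorem desc (hX : X.Good) (D : Nat0 X) {rc : S → List Bool} (hrc : RootCode D rc) {g : S → S}
    {n m : ℕ} {q : S} (hq : q ∈ Act hX D n) {η ξ : Stream' Bool} (hη : η = om hX D rc n q ++ₛ ξ)
    (hG : G hX g n q m) (k : ℕ) :
    ∃ q' ξ', q' ∈ Act hX D (n + k) ∧ η = om hX D rc (n + k) q' ++ₛ ξ' ∧ G hX g (n + k) q' (m + k) ∧
      om hX D rc (m + k) (g q') ++ₛ ξ' = om hX D rc m (g q) ++ₛ ξ ∧
      q' ∈ X.pts (nd hX n q) := by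
  induction k with
  | zero => exact ⟨q, ξ, hq, hη, hG, rfl, nd_pts hX n q⟩
  | succ k ih =>
    obtain ⟨q', ξ', hq', hη', hG', he, hpt⟩ := ih
    obtain ⟨r, ⟨hr, ξ'', hξ''⟩, -⟩ := om_part hX D hrc (n + k + 1) η
    have e1 : η = om hX D rc (n + k) (par hX D (n + k) r) ++ₛ (lab hX D (n + k) r ++ₛ ξ'') := by
      rw [← Stream'.append_append_stream]; exact hξ''
    have e2 : par hX D (n + k) r = q' :=
      (om_part hX D hrc (n + k) η).unique ⟨par_act hX D hr, _, e1⟩ ⟨hq', _, hη'⟩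
    have e3 : nd hX (n + k) r = nd hX (n + k) q' := by
      rw [← e2, par_nd hX D hr]
    have e4 : ξ' = lab hX D (n + k) r ++ₛ ξ'' := by
      rw [e2] at e1
      exact Stream'.append_right_injective _ _ _ (hη'.symm.trans e1)
    have hrpt : r ∈ X.pts (nd hX (n + k) q') := by
      rw [← e3]; exact nd_pts hX _ r
    have hGr : G hX g (n + k) r (m + k) := G_congr hX hG' hrpt
    obtain ⟨p1, p2⟩ := G_par hX D hGr hr
    refine ⟨r, ξ'', hr, hξ'', G_step hX hGr, ?_, ?_⟩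
    · show (om hX D rc (m + k) (par hX D (m + k) (g r)) ++ lab hX D (m + k) (g r)) ++ₛ ξ'' = _
      rw [p1, p2, e2, Stream'.append_append_stream, ← e4, he]
    · have h5 : nd hX n q' = nd hX n q := nd_congr hX hpt
      have h6 := pts_anti hX (show n ≤ n + k by omega) q' hrpt
      rwa [h5] at h6

/-- the relation defining the image of `g` -/
def T (hX : X.Good) (D : Nat0 X) (rc : S → List Bool) (g : S → S) (η η' : Stream' Bool) : Prop :=
  ∃ (n m : ℕ) (q : S) (ξ : Stream' Bool), q ∈ Act hX D n ∧ η = om hX D rc n q ++ₛ ξ ∧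
    G hX g n q m ∧ η' = om hX D rc m (g q) ++ₛ ξ

theorem T_fun (hX : X.Good) (D : Nat0 X) {rc : S → List Bool} (hrc : RootCode D rc) {g : S → S}
    {η η1 η2 : Stream' Bool} (h1 : T hX D rc g η η1) (h2 : T hX D rc g η η2) : η1 = η2 := by
  obtain ⟨n, m, q, ξ, hq, hη, hG, he⟩ := h1
  obtain ⟨n', m', q', ξ', hq', hη', hG', he'⟩ := h2
  obtain ⟨a, x, ha, hx, hGa, hea, -⟩ := desc hX D hrc hq hη hG n'
  obtain ⟨b, y, hb, hy, hGb, heb, -⟩ := desc hX D hrc hq' hη' hG' n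
  have hnn : n' + n = n + n' := by omega
  rw [hnn] at hb hy hGb
  have hab : a = b := (om_part hX D hrc (n + n') η).unique ⟨ha, _, hx⟩ ⟨hb, _, hy⟩
  subst hab
  have hxy : x = y := Stream'.append_right_injective _ _ _ (hx.symm.trans hy)
  subst hxy
  rw [he, he', ← hea, ← heb, G_unique hX D rc hGa hGb ha]

theorem T_total (hX : X.Good) (D : Nat0 X) {rc : S → List Bool} (hrc : RootCode D rc) {g : S → S}
    (hg : X.Loc g) (η : Stream' Bool) : ∃ η', T hX D rc g η η' := by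
  obtain ⟨n, hn⟩ := hg
  obtain ⟨q, ⟨hq, ξ, hξ⟩, -⟩ := om_part hX D hrc n η
  obtain ⟨m, B', hB', h, hh, he⟩ := hn _ (nd_lev hX n q)
  have h1 : g q ∈ X.pts B' := by
    rw [he q (nd_pts hX n q)]
    exact (hX.maps _ _ (nd_node hX _ _) ⟨m, hB'⟩ h hh).mapsTo (nd_pts hX n q)
  have h2 : nd hX m (g q) = B' := nd_eq hX hB' h1
  exact ⟨om hX D rc m (g q) ++ₛ ξ, n, m, q, ξ, hq, hξ, ⟨h, by rw [h2]; exact hh, he⟩, rfl⟩

theorem T_comp (hX : X.Good) (D : Nat0 X) {rc : S → List Bool} (hrc : RootCode D rc)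
    {g g' : S → S} {η η1 η2 : Stream' Bool} (h1 : T hX D rc g η η1) (h2 : T hX D rc g' η1 η2) :
    T hX D rc (g' ∘ g) η η2 := by
  obtain ⟨n, m, q, ξ, hq, hη, hG, he⟩ := h1
  obtain ⟨n', m', q', ξ', hq', hη', hG', he'⟩ := h2
  obtain ⟨a, x, ha, hx, hGa, hea, -⟩ := desc hX D hrc hq hη hG n'
  obtain ⟨b, y, hb, hy, hGb, heb, -⟩ := desc hX D hrc hq' hη' hG' m
  have hnn : n' + m = m + n' := by omega
  rw [hnn] at hb hy hGb
  have hga := G_act hX D hGa ha
  have h3 : η1 = om hX D rc (m + n') (g a) ++ₛ x := by rw [he, hea]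
  have hab : g a = b := (om_part hX D hrc (m + n') η1).unique ⟨hga, _, h3⟩ ⟨hb, _, hy⟩
  subst hab
  have hxy : x = y := Stream'.append_right_injective _ _ _ (h3.symm.trans hy)
  subst hxy
  refine ⟨n + n', m' + m, a, x, ha, hx, ?_, ?_⟩
  · obtain ⟨h, hh, hhe⟩ := hGa
    obtain ⟨k, hk, hke⟩ := hGb
    obtain ⟨l, hl, hle⟩ := hX.comp _ _ _ (nd_node hX _ _) (nd_node hX _ _) (nd_node hX _ _) h hh k hk
    refine ⟨l, hl, ?_⟩
    intro z hz
    rw [hle z hz, ← hhe z hz]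
    apply hke
    rw [hhe z hz]
    exact (hX.maps _ _ (nd_node hX _ _) (nd_node hX _ _) h hh).mapsTo hz
  · rw [he', ← heb]; rfl

theorem T_id (hX : X.Good) (D : Nat0 X) {rc : S → List Bool} (hrc : RootCode D rc)
    (η : Stream' Bool) : T hX D rc id η η := by
  obtain ⟨q, ⟨hq, ξ, hξ⟩, -⟩ := om_part hX D hrc 0 η
  refine ⟨0, 0, q, ξ, hq, hξ, ?_, hξ⟩
  obtain ⟨h, hh, he⟩ := hX.one _ (nd_node hX 0 q)
  exact ⟨h, hh, fun y hy => (he y hy).symm⟩

theorem lev_finite (hX : X.Good) (n : ℕ) : (X.lev n).Finite := by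
  induction n with
  | zero => exact finite_singleton _
  | succ n ih =>
    have : X.lev (n + 1) = ⋃ B ∈ X.lev n, X.ch B := by
      ext C; simp [Sys.lev]
    rw [this]
    exact ih.biUnion (fun B hB => hX.ch_fin B ⟨n, hB⟩)

theorem act_finite (hX : X.Good) (D : Nat0 X) (n : ℕ) : (Act hX D n).Finite := by
  refine ((lev_finite hX n).biUnion (fun B hB => D.Q_fin B ⟨n, hB⟩)).subset ?_
  intro q hq
  exact mem_biUnion (nd_lev hX n q) hq

/-- uniform depth -/
theorem T_depth (hX : X.Good) (D : Nat0 X) {rc : S → List Bool} (hrc : RootCode D rc) {g : S → S}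
    (hg : X.Loc g) : ∃ L : ℕ, ∀ w : List Bool, w.length = L → ∃ v : List Bool,
      ∀ ξ : Stream' Bool, T hX D rc g (w ++ₛ ξ) (v ++ₛ ξ) := by
  obtain ⟨n, hn⟩ := hg
  obtain ⟨L, hL⟩ := ((act_finite hX D n).image (fun q => (om hX D rc n q).length)).bddAbove
  refine ⟨L, fun w hw => ?_⟩
  obtain ⟨q, ⟨hq, ξ, hξ⟩, -⟩ := om_part hX D hrc n (w ++ₛ Stream'.const false)
  have hlen : (om hX D rc n q).length ≤ w.length := by
    rw [hw]; exact hL ⟨q, hq, rfl⟩
  obtain ⟨m, B', hB', h, hh, he⟩ := hn _ (nd_lev hX n q)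
  have h1 : g q ∈ X.pts B' := by
    rw [he q (nd_pts hX n q)]
    exact (hX.maps _ _ (nd_node hX _ _) ⟨m, hB'⟩ h hh).mapsTo (nd_pts hX n q)
  have h2 : nd hX m (g q) = B' := nd_eq hX hB' h1
  have hG : G hX g n q m := ⟨h, by rw [h2]; exact hh, he⟩
  have hw' : w = om hX D rc n q ++ w.drop (om hX D rc n q).length := by
    have : w.take (om hX D rc n q).length = om hX D rc n q := by
      have t1 : Stream'.take (om hX D rc n q).length (w ++ₛ Stream'.const false) =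
          w.take (om hX D rc n q).length := Stream'.take_append_of_le_length _ _ _ hlen
      have t2 : Stream'.take (om hX D rc n q).length (om hX D rc n q ++ₛ ξ) =
          (om hX D rc n q).take (om hX D rc n q).length :=
        Stream'.take_append_of_le_length _ _ _ le_rfl
      rw [hξ, t2, List.take_length] at t1
      exact t1.symm
    conv_lhs => rw [← List.take_append_drop (om hX D rc n q).length w]
    rw [this]
  refine ⟨om hX D rc m (g q) ++ w.drop (om hX D rc n q).length, fun ξ' => ?_⟩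
  refine ⟨n, m, q, w.drop (om hX D rc n q).length ++ₛ ξ', hq, ?_, hG, ?_⟩
  · conv_lhs => rw [hw']
    rw [Stream'.append_append_stream]
  · rw [Stream'.append_append_stream]

end Pool.Helper4.FSS
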