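import Mathlib
import Pool.Agent.Helper4.FSS.Core

/-!
Core of the embedding in Thompson's group V, second part: faithfulness and the homomorphism.
-/

set_option autoImplicit false

namespace Pool.Helper4.FSS

open Set

variable {S N : Type*} {X : Sys S N}

theorem word_eq {u v : List Bool} (h : ∀ ξ : Stream' Bool, u ++ₛ ξ = v ++ₛ ξ) : u = v := by
  have key : ∀ u v : List Bool, u.length ≤ v.length → (∀ ξ : Stream' Bool, u ++ₛ ξ = v ++ₛ ξ) →
      u = v := by
    intro u v hl h
    have t : u = v.take u.length := by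
      have h0 := congrArg (Stream'.take u.length) (h (Stream'.const false))
      rw [Stream'.take_append_of_le_length _ _ _ le_rfl,
        Stream'.take_append_of_le_length _ _ _ hl, List.take_length] at h0
      exact h0
    have hz : ∀ ξ : Stream' Bool, ξ = v.drop u.length ++ₛ ξ := by
      intro ξ
      have h1 := h ξ
      conv_rhs at h1 => rw [← List.take_append_drop u.length v, ← t,
        Stream'.append_append_stream]
      exact Stream'.append_right_injective _ _ _ h1
    have hnil : v.drop u.length = [] := by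
      cases hcz : v.drop u.length with
      | nil => rfl
      | cons b l =>
        exfalso
        have hξ := hz (Stream'.const (!b))
        rw [hcz, Stream'.cons_append_stream] at hξ
        have h0 := congrArg (fun s : Stream' Bool => s.get 0) hξ
        simp only [Stream'.get_const] at h0
        have h1 : (Stream'.cons b (l ++ₛ Stream'.const (!b))).get 0 = b := rfl
        rw [h1] at h0
        cases b <;> simp at h0
    rw [← List.take_append_drop u.length v, hnil, List.append_nil]
    exact t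
  rcases le_total u.length v.length with hl | hl
  · exact key u v hl h
  · exact (key v u hl (fun ξ => (h ξ).symm)).symm

theorem node_level (hX : X.Good) {m : ℕ} {z : S} (k : ℕ)
    (h : X.pts (nd hX (m + k) z) = X.pts (nd hX m z)) : nd hX (m + k) z = nd hX m z := by
  induction k with
  | zero => rfl
  | succ k ih =>
    have h1 : X.pts (nd hX (m + k) z) = X.pts (nd hX m z) := by
      apply Subset.antisymm (pts_anti hX (by omega) z)
      rw [← h]
      exact pts_anti hX (by omega) z
    have i1 := ih h1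
    have h2 : X.pts (nd hX (m + k + 1) z) = X.pts (nd hX (m + k) z) := by
      rw [h1]; exact h
    rw [← i1]
    exact hX.ch_loop _ (nd_node hX _ z) _ (nd_succ hX _ z) h2

theorem node_level' (hX : X.Good) {m m' : ℕ} {z : S}
    (h : X.pts (nd hX m z) = X.pts (nd hX m' z)) : nd hX m z = nd hX m' z := by
  rcases le_total m m' with hle | hle
  · obtain ⟨k, rfl⟩ := Nat.exists_eq_add_of_le hle
    exact (node_level hX k h.symm).symm
  · obtain ⟨k, rfl⟩ := Nat.exists_eq_add_of_le hle
    exact node_level hX k h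

theorem chain (hX : X.Good) (D : Nat0 X) {rc : S → List Bool} (hrc : RootCode D rc)
    {n m : ℕ} (hnm : n ≤ m) {q r : S} (hq : q ∈ Act hX D n) (hr : r ∈ Act hX D m)
    {η : Stream' Bool} (h1 : ∃ ξ, η = om hX D rc n q ++ₛ ξ)
    (h2 : ∃ ξ, η = om hX D rc m r ++ₛ ξ) : r ∈ X.pts (nd hX n q) := by
  obtain ⟨k, rfl⟩ := Nat.exists_eq_add_of_le hnm
  obtain ⟨ξ, hξ⟩ := h1
  obtain ⟨h, hh, he⟩ := hX.one _ (nd_node hX n q)
  have hG : G hX id n q n := ⟨h, hh, fun y hy => (he y hy).symm⟩
  obtain ⟨q', ξ', hq', hη', -, -, hpt⟩ := desc hX D hrc hq hξ hG k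
  have : q' = r := (om_part hX D hrc (n + k) η).unique ⟨hq', _, hη'⟩ ⟨hr, h2⟩
  rw [← this]; exact hpt

theorem faithful (hX : X.Good) (D : Nat0 X) {rc : S → List Bool} (hrc : RootCode D rc)
    {g : S → S} (hg : X.Loc g) (hT : ∀ η, T hX D rc g η η) (x : S) : g x = x := by
  obtain ⟨n, hn⟩ := hg
  obtain ⟨m, B', hB', h, hh, he⟩ := hn _ (nd_lev hX n x)
  have hmaps := hX.maps _ _ (nd_node hX n x) ⟨m, hB'⟩ h hh
  have h1 : g x ∈ X.pts B' := by
    rw [he x (nd_pts hX n x)]
    exact hmaps.mapsTo (nd_pts hX n x)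
  have h2 : nd hX m (g x) = B' := nd_eq hX hB' h1
  have hG : G hX g n x m := ⟨h, by rw [h2]; exact hh, he⟩
  set B := nd hX n x with hBdef
  have hBn : X.IsNode B := nd_node hX n x
  have hBn' : X.IsNode B' := ⟨m, hB'⟩
  have hBl : B ∈ X.lev n := nd_lev hX n x
  -- properties of marked points of B
  have hQ : ∀ q ∈ D.Q B, nd hX n q = B ∧ q ∈ Act hX D n ∧ g q ∈ D.Q B' ∧ nd hX m (g q) = B' ∧
      g q ∈ Act hX D m ∧ om hX D rc m (g q) = om hX D rc n q := by
    intro q hq
    have hqp := D.Q_sub B hBn hq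
    have a1 : nd hX n q = B := nd_congr hX hqp
    have a2 : q ∈ Act hX D n := by
      show q ∈ D.Q (nd hX n q)
      rw [a1]; exact hq
    have hGq : G hX g n q m := G_congr hX hG hqp
    have a3 : g q ∈ D.Q B' := by
      rw [he q hqp]
      exact D.Q_nat _ _ hBn hBn' h hh q hq
    have a4 : nd hX m (g q) = B' := nd_eq hX hB' (D.Q_sub B' hBn' a3)
    have a5 : g q ∈ Act hX D m := by
      show g q ∈ D.Q (nd hX m (g q))
      rw [a4]; exact a3
    refine ⟨a1, a2, a3, a4, a5, ?_⟩
    apply word_eq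
    intro ξ
    exact T_fun hX D hrc ⟨n, m, q, ξ, a2, rfl, hGq, rfl⟩ (hT _)
  -- marked points of B' come from B
  have hQ' : ∀ q' ∈ D.Q B', ∃ q ∈ D.Q B, g q = q' := by
    intro q' hq'
    obtain ⟨k, hk, hke⟩ := hX.inv _ _ hBn hBn' h hh
    obtain ⟨y, hy, hyq⟩ := hmaps.surjOn (D.Q_sub B' hBn' hq')
    refine ⟨k q', D.Q_nat _ _ hBn' hBn k hk q' hq', ?_⟩
    rw [← hyq, hke y hy, he y hy]
  obtain ⟨q0, hq0⟩ := D.Q_ne B hBn
  obtain ⟨b1, b2, b3, b4, b5, b6⟩ := hQ q0 hq0
  have hpts : X.pts B = X.pts B' := by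
    rcases le_total n m with hnm | hnm
    · -- n ≤ m
      have c1 : g q0 ∈ X.pts (nd hX n q0) := by
        apply chain hX D hrc hnm b2 b5 (η := om hX D rc n q0 ++ₛ Stream'.const false)
          ⟨_, rfl⟩ ⟨Stream'.const false, by rw [b6]⟩
      rw [b1] at c1
      have c2 : nd hX n (g q0) = B := nd_eq hX hBl c1
      have c3 : X.pts B' ⊆ X.pts B := by
        have := pts_anti hX hnm (g q0)
        rwa [c2, b4] at this
      apply Subset.antisymm _ c3
      intro y hy
      obtain ⟨r, hr⟩ := D.Q_ne _ (nd_node hX m y)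
      have hrp := D.Q_sub _ (nd_node hX m y) hr
      have d1 : nd hX m r = nd hX m y := nd_congr hX hrp
      have d2 : r ∈ Act hX D m := by
        show r ∈ D.Q (nd hX m r)
        rw [d1]; exact hr
      obtain ⟨q', ⟨hq', ξ', hξ'⟩, -⟩ := om_part hX D hrc n (om hX D rc m r ++ₛ Stream'.const false)
      have d3 : r ∈ X.pts (nd hX n q') := chain hX D hrc hnm hq' d2 ⟨ξ', hξ'⟩ ⟨_, rfl⟩
      have d4 : nd hX n y = B := nd_eq hX hBl hy
      have d5 : r ∈ X.pts B := by
        have := pts_anti hX hnm y hrp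
        rwa [d4] at this
      have d6 : nd hX n q' = B := by
        rw [← nd_congr hX d3]; exact nd_eq hX hBl d5
      have d7 : q' ∈ D.Q B := by
        have : q' ∈ D.Q (nd hX n q') := hq'
        rwa [d6] at this
      obtain ⟨-, -, -, e4, e5, e6⟩ := hQ q' d7
      have d8 : g q' = r := by
        apply (om_part hX D hrc m (om hX D rc m r ++ₛ Stream'.const false)).unique
          ⟨e5, ξ', ?_⟩ ⟨d2, _, rfl⟩
        rw [e6]; exact hξ'
      rw [d8, d1] at e4
      rw [← e4]; exact nd_pts hX m y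
    · -- m ≤ n
      have c1 : q0 ∈ X.pts (nd hX m (g q0)) := by
        apply chain hX D hrc hnm b5 b2 (η := om hX D rc n q0 ++ₛ Stream'.const false)
          ⟨Stream'.const false, by rw [b6]⟩ ⟨_, rfl⟩
      rw [b4] at c1
      have c2 : nd hX m q0 = B' := nd_eq hX hB' c1
      have c3 : X.pts B ⊆ X.pts B' := by
        have := pts_anti hX hnm q0
        rwa [c2, b1] at this
      apply Subset.antisymm c3
      intro y hy
      obtain ⟨r, hr⟩ := D.Q_ne _ (nd_node hX n y)
      have hrp := D.Q_sub _ (nd_node hX n y) hr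
      have d1 : nd hX n r = nd hX n y := nd_congr hX hrp
      have d2 : r ∈ Act hX D n := by
        show r ∈ D.Q (nd hX n r)
        rw [d1]; exact hr
      obtain ⟨q', ⟨hq', ξ', hξ'⟩, -⟩ := om_part hX D hrc m (om hX D rc n r ++ₛ Stream'.const false)
      have d3 : r ∈ X.pts (nd hX m q') := chain hX D hrc hnm hq' d2 ⟨ξ', hξ'⟩ ⟨_, rfl⟩
      have d4 : nd hX m y = B' := nd_eq hX hB' hy
      have d5 : r ∈ X.pts B' := by
        have := pts_anti hX hnm y hrp
        rwa [d4] at this
      have d6 : nd hX m q' = B' := by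
        rw [← nd_congr hX d3]; exact nd_eq hX hB' d5
      have d7 : q' ∈ D.Q B' := by
        have : q' ∈ D.Q (nd hX m q') := hq'
        rwa [d6] at this
      obtain ⟨q, hq, hgq⟩ := hQ' q' d7
      obtain ⟨e1, e2, -, -, -, e6⟩ := hQ q hq
      have d8 : q = r := by
        apply (om_part hX D hrc n (om hX D rc n r ++ₛ Stream'.const false)).unique
          ⟨e2, ξ', ?_⟩ ⟨d2, _, rfl⟩
        rw [← e6, hgq]; exact hξ'
      rw [d8, d1] at e1
      rw [← e1]; exact nd_pts hX n y
  have hnode : B = B' := by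
    have f1 : nd hX m q0 = B' := nd_eq hX hB' (by rw [← hpts]; exact D.Q_sub B hBn hq0)
    have f2 : nd hX n q0 = nd hX m q0 := node_level' hX (by rw [b1, f1, hpts])
    rw [← b1, f2, f1]
  have hfix : ∀ q ∈ D.Q B, h q = q := by
    intro q hq
    obtain ⟨a1, a2, a3, a4, a5, a6⟩ := hQ q hq
    have hz : g q ∈ D.Q B := by rw [hnode]; exact a3
    have hzp := D.Q_sub B hBn hz
    have f1 : nd hX n (g q) = B := nd_eq hX hBl hzp
    have f2 : g q ∈ Act hX D n := by
      show g q ∈ D.Q (nd hX n (g q))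
      rw [f1]; exact hz
    have f3 := (om_level' hX D rc f2 a5 (by rw [f1, a4, hpts])).2
    have f4 : g q = q := by
      apply (om_part hX D hrc n (om hX D rc n q ++ₛ Stream'.const false)).unique
        ⟨f2, Stream'.const false, ?_⟩ ⟨a2, _, rfl⟩
      rw [f3, a6]
    rw [← he q (D.Q_sub B hBn hq)]; exact f4
  have hh' : h ∈ X.sim B B := by rw [hnode] at hh ⊢; exact hh
  rw [he x (nd_pts hX n x)]
  exact D.Q_faith B hBn h hh' hfix x (nd_pts hX n x)

/-- the image of `g` -/
noncomputable def phi (hX : X.Good) (D : Nat0 X) {rc : S → List Bool} (hrc : RootCode D rc)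
    {g : S → S} (hg : X.Loc g) (η : Stream' Bool) : Stream' Bool :=
  (T_total hX D hrc hg η).choose

theorem phi_spec (hX : X.Good) (D : Nat0 X) {rc : S → List Bool} (hrc : RootCode D rc)
    {g : S → S} (hg : X.Loc g) (η : Stream' Bool) : T hX D rc g η (phi hX D hrc hg η) :=
  (T_total hX D hrc hg η).choose_spec

theorem core (hX : X.Good) (D : Nat0 X) {rc : S → List Bool} (hrc : RootCode D rc)
    {K : Type*} [Group K] (ρ : K →* Equiv.Perm S) (hρ : Function.Injective ρ)
    (hloc : ∀ a, X.Loc (ρ a)) :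
    ∃ φ : K →* Equiv.Perm (Stream' Bool), Function.Injective φ ∧ ∀ a, InV' (φ a) := by
  let F : K →* Function.End (Stream' Bool) :=
    { toFun := fun a => phi hX D hrc (hloc a)
      map_one' := by
        funext η
        have h1 := phi_spec hX D hrc (hloc 1) η
        have h2 : ((ρ 1 : Equiv.Perm S) : S → S) = id := by rw [map_one]; rfl
        have h3 : T hX D rc (ρ 1) η η := by
          rw [h2]; exact T_id hX D hrc η
        exact T_fun hX D hrc h1 h3
      map_mul' := by
        intro a b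
        funext η
        have h1 := phi_spec hX D hrc (hloc (a * b)) η
        have h2 := phi_spec hX D hrc (hloc b) η
        have h3 := phi_spec hX D hrc (hloc a) (phi hX D hrc (hloc b) η)
        have h4 := T_comp hX D hrc h2 h3
        have h5 : ((ρ (a * b) : Equiv.Perm S) : S → S) = ρ a ∘ ρ b := by rw [map_mul]; rfl
        rw [← h5] at h4
        exact T_fun hX D hrc h1 h4 }
  refine ⟨F.toHomPerm, ?_, ?_⟩
  · rw [injective_iff_map_eq_one]
    intro a ha
    apply hρ
    rw [map_one]
    ext x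
    apply faithful hX D hrc (hloc a)
    intro η
    have h1 := phi_spec hX D hrc (hloc a) η
    have h2 : phi hX D hrc (hloc a) η = η := by
      have h3 : F.toHomPerm a η = (1 : Equiv.Perm (Stream' Bool)) η := by rw [ha]
      exact h3
    rwa [h2] at h1
  · intro a
    obtain ⟨L, hL⟩ := T_depth hX D hrc (hloc a)
    refine ⟨L, fun w hw => ?_⟩
    obtain ⟨v, hv⟩ := hL w hw
    refine ⟨v, fun ξ => ?_⟩
    have h1 := phi_spec hX D hrc (hloc a) (w ++ₛ ξ)
    exact T_fun hX D hrc h1 (hv ξ)

end Pool.Helper4.FSS
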