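import Mathlib
import Pool.Agent.Helper4.FSS.Defs

/-!
The literal objects: Hughes' finite similarity structures on compact ultrametric spaces, and the
groups `V_(G,θ)` of Berns-Zieve, Fry, Gillings, Hoganson and Mathews.
-/

set_option autoImplicit false

namespace Pool.Helper4.FSS

open Set

/-- A ball of a metric space: an open ball of positive radius. -/
def IsBall {X : Type*} [MetricSpace X] (B : Set X) : Prop :=
  ∃ (x : X) (r : ℝ), 0 < r ∧ B = Metric.ball x r

/-- A finite similarity structure (Hughes): to every ordered pair of balls a finite (possibly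
empty) set of surjective similarities between them, closed under identities, inverses,
compositions and restrictions to sub-balls. -/
structure FSStr (X : Type*) [MetricSpace X] where
  Sim : (B₁ B₂ : Set X) → Set (B₁ ≃ B₂)
  finite : ∀ B₁ B₂ : Set X, IsBall B₁ → IsBall B₂ → (Sim B₁ B₂).Finite
  similarity : ∀ B₁ B₂ : Set X, IsBall B₁ → IsBall B₂ → ∀ h ∈ Sim B₁ B₂,
    ∃ lam : ℝ, 0 < lam ∧ ∀ x y : B₁, dist (h x) (h y) = lam * dist x y
  id_mem : ∀ B : Set X, IsBall B → Equiv.refl B ∈ Sim B B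
  inv_mem : ∀ B₁ B₂ : Set X, IsBall B₁ → IsBall B₂ → ∀ h ∈ Sim B₁ B₂, h.symm ∈ Sim B₂ B₁
  comp_mem : ∀ B₁ B₂ B₃ : Set X, IsBall B₁ → IsBall B₂ → IsBall B₃ →
    ∀ h ∈ Sim B₁ B₂, ∀ k ∈ Sim B₂ B₃, h.trans k ∈ Sim B₁ B₃
  restrict_mem : ∀ B₁ B₂ B₃ : Set X, IsBall B₁ → IsBall B₂ → IsBall B₃ →
    ∀ h ∈ Sim B₁ B₂, ∀ hs : B₃ ⊆ B₁, ∃ B₄ : Set X, IsBall B₄ ∧ ∃ k ∈ Sim B₃ B₄,
      ∀ x : B₃, (k x : X) = h ⟨x, hs x.2⟩

/-- a homeomorphism locally determined by the structure -/
def FSStr.Loc {X : Type*} [MetricSpace X] (Sm : FSStr X) (γ : X ≃ₜ X) : Prop :=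
  ∀ x : X, ∃ B B' : Set X, IsBall B ∧ IsBall B' ∧ x ∈ B ∧ ∃ h ∈ Sm.Sim B B',
    ∀ y : B, γ y = (h y : X)

/-- binary sequences with finitely many ones -/
def D : Type := {ξ : Stream' Bool // {n : ℕ | ξ.get n = true}.Finite}

/-- number of ones -/
noncomputable def D.ones (ξ : D) : ℕ := {n : ℕ | ξ.1.get n = true}.ncard

theorem pre_finite (u : List Bool) (η : Stream' Bool) (h : {n : ℕ | η.get n = true}.Finite) :
    {n : ℕ | (u ++ₛ η).get n = true}.Finite := by
  refine ((Set.finite_lt_nat u.length).union (h.image (fun n => u.length + n))).subset ?_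
  intro n hn
  by_cases hl : n < u.length
  · exact Or.inl hl
  · right
    refine ⟨n - u.length, ?_, by simp only; omega⟩
    have h1 : n = u.length + (n - u.length) := by omega
    rw [mem_setOf_eq, h1, Stream'.get_append_right] at hn
    exact hn

/-- prepend a finite word -/
def D.pre (u : List Bool) (η : D) : D := ⟨u ++ₛ η.1, pre_finite u η.1 η.2⟩

/-- `F` is an element of `V_(G,θ)`: for two finite complete prefix codes `u`, `v` and labels `g`
it maps `(u i η, h)` to `(v i η, θ^|η| (g i) h)`, `|η|` the number of ones of `η`. -/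
def InVG {G : Type*} [Group G] (θ : G →* G) (F : Equiv.Perm (D × G)) : Prop :=
  ∃ (k : ℕ) (u v : Fin k → List Bool) (g : Fin k → G), IsCode u ∧ IsCode v ∧
    ∀ (i : Fin k) (η : D) (h : G),
      F (D.pre (u i) η, h) = (D.pre (v i) η, (θ^[η.ones]) (g i) * h)

end Pool.Helper4.FSS
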