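import Mathlib
import Pool.Agent.Helper4.FSS.Defs

/-!
Block FSS-Q of MP_0f943d_al: natural finite sets of marked points.
-/

set_option autoImplicit false

namespace Pool.Helper4.FSS

open Set

namespace QQ

variable {S N : Type*} {X : Sys S N}

theorem conj (hX : X.Good) {B B' : N} (hB : X.IsNode B) (hB' : X.IsNode B') {g : S → S}
    (hg : g ∈ X.sim B B') {k : S → S} (hk : k ∈ X.sim B' B') :
    ∃ m ∈ X.sim B B, ∀ y ∈ X.pts B, (m y = y ↔ k (g y) = g y) := by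
  obtain ⟨g', hg', hgi⟩ := hX.inv B B' hB hB' g hg
  have hgb := hX.maps B B' hB hB' g hg
  have hkb := hX.maps B' B' hB' hB' k hk
  obtain ⟨l, hl, hle⟩ := hX.comp B B' B' hB hB' hB' g hg k hk
  obtain ⟨m, hm, hme⟩ := hX.comp B B' B hB hB' hB l hl g' hg'
  refine ⟨m, hm, ?_⟩
  intro y hy
  have hgy : g y ∈ X.pts B' := hgb.mapsTo hy
  have hkgy : k (g y) ∈ X.pts B' := hkb.mapsTo hgy
  obtain ⟨z, hz, hzg⟩ := hgb.surjOn hkgy
  have h1 : m y = z := by rw [hme y hy, hle y hy, ← hzg, hgi z hz]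
  constructor
  · intro h
    rw [← hzg, ← h1, h]
  · intro h
    rw [h1]
    apply hgb.injOn hz hy
    rw [hzg, h]

/-- a node together with a point -/
def P (X : Sys S N) : Type _ := {p : N × S // X.IsNode p.1 ∧ p.2 ∈ X.pts p.1}

def Rel (p p' : P X) : Prop :=
  ∃ h ∈ X.sim p.1.1 p'.1.1, ∀ k ∈ X.sim p'.1.1 p'.1.1,
    (k (h p.1.2) = h p.1.2 ↔ k p'.1.2 = p'.1.2)

theorem rel_equiv (hX : X.Good) : Equivalence (Rel (X := X)) := by
  constructor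
  · rintro ⟨⟨B, x⟩, hB, hx⟩
    obtain ⟨h, hh, he⟩ := hX.one B hB
    refine ⟨h, hh, fun k _ => ?_⟩
    simp only [he x hx]
  · rintro ⟨⟨B, x⟩, hB, hx⟩ ⟨⟨B', x'⟩, hB', hx'⟩ ⟨h, hh, he⟩
    obtain ⟨h', hh', hi⟩ := hX.inv B B' hB hB' h hh
    refine ⟨h', hh', fun k hk => ?_⟩
    obtain ⟨m, hm, hme⟩ := conj hX hB' hB hh' hk
    have hhx : h x ∈ X.pts B' := (hX.maps B B' hB hB' h hh).mapsTo hx
    have h1 := hme x' hx'
    have h2 := hme (h x) hhx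
    rw [hi x hx] at h2
    have h3 := he m hm
    exact h1.symm.trans (h3.symm.trans h2)
  · rintro ⟨⟨B, x⟩, hB, hx⟩ ⟨⟨B', x'⟩, hB', hx'⟩ ⟨⟨B'', x''⟩, hB'', hx''⟩ ⟨h, hh, he⟩ ⟨g, hg, hge⟩
    obtain ⟨f, hf, hfe⟩ := hX.comp B B' B'' hB hB' hB'' h hh g hg
    refine ⟨f, hf, fun k hk => ?_⟩
    obtain ⟨m, hm, hme⟩ := conj hX hB' hB'' hg hk
    have hhx : h x ∈ X.pts B' := (hX.maps B B' hB hB' h hh).mapsTo hx
    have h1 := hme x' hx'
    have h2 := hme (h x) hhx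
    have h3 := he m hm
    have h4 := hge k hk
    have h5 : f x = g (h x) := hfe x hx
    show k (f x) = f x ↔ k x'' = x''
    rw [h5]
    exact h2.symm.trans (h3.trans (h1.trans h4))

def sd (hX : X.Good) : Setoid (P X) := ⟨Rel, rel_equiv hX⟩

noncomputable def rep (hX : X.Good) (p : P X) : P X := (Quotient.mk (sd hX) p).out

theorem rep_rel (hX : X.Good) (p : P X) : Rel (rep hX p) p := by
  have := Quotient.mk_out (s := sd hX) p
  exact this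

theorem rep_eq (hX : X.Good) {p p' : P X} (h : Rel p p') : rep hX p = rep hX p' := by
  unfold rep
  have : Quotient.mk (sd hX) p = Quotient.mk (sd hX) p' := Quotient.sound (s := sd hX) h
  rw [this]

end QQ

open QQ in
theorem exists_Q {S N : Type*} (X : Sys S N) (hX : X.Good) :
    ∃ Q : N → Set S,
      (∀ B, X.IsNode B → Q B ⊆ X.pts B) ∧
      (∀ B, X.IsNode B → (Q B).Finite) ∧
      (∀ B, X.IsNode B → ∀ x ∈ X.pts B, ∃ q ∈ Q B, ∀ h ∈ X.sim B B, (h q = q ↔ h x = x)) ∧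
      (∀ B, X.IsNode B → ∀ q ∈ Q B, ∀ q' ∈ Q B,
        (∀ h ∈ X.sim B B, (h q = q ↔ h q' = q')) → ∃ s ∈ X.sim B B, s q = q') ∧
      (∀ B B', X.IsNode B → X.IsNode B' → ∀ h ∈ X.sim B B', ∀ q ∈ Q B, h q ∈ Q B') := by
  classical
  let Q : N → Set S := fun B => {q | ∃ (hB : X.IsNode B) (hq : q ∈ X.pts B),
    ∃ h ∈ X.sim (rep hX ⟨(B, q), hB, hq⟩).1.1 B, h (rep hX ⟨(B, q), hB, hq⟩).1.2 = q}
  have Q_sub : ∀ B, X.IsNode B → Q B ⊆ X.pts B := by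
    rintro B hB q ⟨_, hq, _⟩
    exact hq
  have Q1 : ∀ B, X.IsNode B → ∀ x ∈ X.pts B, ∃ q ∈ Q B, ∀ h ∈ X.sim B B, (h q = q ↔ h x = x) := by
    intro B hB x hx
    obtain ⟨h, hh, he⟩ := rep_rel hX ⟨(B, x), hB, hx⟩
    set r := rep hX ⟨(B, x), hB, hx⟩ with hr
    have hq : h r.1.2 ∈ X.pts B := (hX.maps _ _ r.2.1 hB h hh).mapsTo r.2.2
    have hrel : Rel (X := X) ⟨(B, h r.1.2), hB, hq⟩ ⟨(B, x), hB, hx⟩ := by
      obtain ⟨o, ho, hoe⟩ := hX.one B hB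
      refine ⟨o, ho, fun k hk => ?_⟩
      show k (o (h r.1.2)) = o (h r.1.2) ↔ k x = x
      rw [hoe _ hq]
      exact he k hk
    have hrep := rep_eq hX hrel
    refine ⟨h r.1.2, ⟨hB, hq, h, ?_, ?_⟩, he⟩
    · rw [hrep]; exact hh
    · rw [hrep]
  have Q2 : ∀ B, X.IsNode B → ∀ q ∈ Q B, ∀ q' ∈ Q B,
      (∀ h ∈ X.sim B B, (h q = q ↔ h q' = q')) → ∃ s ∈ X.sim B B, s q = q' := by
    rintro B hB q ⟨_, hq, h, hh, he⟩ q' ⟨_, hq', h', hh', he'⟩ hst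
    have hrel : Rel (X := X) ⟨(B, q), hB, hq⟩ ⟨(B, q'), hB, hq'⟩ := by
      obtain ⟨o, ho, hoe⟩ := hX.one B hB
      refine ⟨o, ho, fun k hk => ?_⟩
      show k (o q) = o q ↔ k q' = q'
      rw [hoe _ hq]
      exact hst k hk
    have hrep := rep_eq hX hrel
    rw [← hrep] at hh' he'
    set r := rep hX ⟨(B, q), hB, hq⟩ with hr
    obtain ⟨k, hk, hki⟩ := hX.inv _ _ r.2.1 hB h hh
    obtain ⟨s, hs, hse⟩ := hX.comp _ _ _ hB r.2.1 hB k hk h' hh'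
    refine ⟨s, hs, ?_⟩
    rw [hse q hq]
    have : k q = r.1.2 := by
      rw [← he]; exact hki _ r.2.2
    rw [this, he']
  have Q_nat : ∀ B B', X.IsNode B → X.IsNode B' → ∀ h ∈ X.sim B B', ∀ q ∈ Q B, h q ∈ Q B' := by
    rintro B B' hB hB' h hh q ⟨_, hq, g, hg, hge⟩
    have hq' : h q ∈ X.pts B' := (hX.maps _ _ hB hB' h hh).mapsTo hq
    have hrel : Rel (X := X) ⟨(B, q), hB, hq⟩ ⟨(B', h q), hB', hq'⟩ := ⟨h, hh, fun k _ => Iff.rfl⟩
    have hrep := rep_eq hX hrel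
    refine ⟨hB', hq', ?_⟩
    rw [← hrep]
    set r := rep hX ⟨(B, q), hB, hq⟩ with hr
    obtain ⟨l, hl, hle⟩ := hX.comp _ _ _ r.2.1 hB hB' g hg h hh
    refine ⟨l, hl, ?_⟩
    rw [hle _ r.2.2, hge]
  refine ⟨Q, Q_sub, ?_, Q1, Q2, Q_nat⟩
  intro B hB
  have hfin := hX.fin B hB
  let St : S → Set (S → S) := fun q => {k ∈ X.sim B B | k q = q}
  by_cases hne : (Q B).Nonempty
  · obtain ⟨q₀, hq₀⟩ := hne
    let pick : Set (S → S) → S := fun K => if h : ∃ q ∈ Q B, St q = K then h.choose else q₀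
    refine ((hfin.finite_subsets).biUnion
      (fun K _ => hfin.image (fun s => s (pick K)))).subset ?_
    intro q hq
    have hK : ∃ q' ∈ Q B, St q' = St q := ⟨q, hq, rfl⟩
    have hp : pick (St q) = hK.choose := dif_pos hK
    obtain ⟨hq', hSt⟩ := hK.choose_spec
    obtain ⟨s, hs, hse⟩ := Q2 B hB _ hq' q hq (by
      intro h hh
      have h1 : h ∈ St hK.choose ↔ h ∈ St q := by rw [hSt]
      simp only [St, mem_setOf_eq, hh, true_and] at h1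
      exact h1)
    have hmem : St q ∈ {b | b ⊆ X.sim B B} := fun k hk => hk.1
    refine mem_biUnion hmem ⟨s, hs, ?_⟩
    show s (pick (St q)) = q
    rw [hp, hse]
  · rw [not_nonempty_iff_eq_empty] at hne
    rw [hne]
    exact finite_empty

end Pool.Helper4.FSS
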