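import Mathlib
import Pool.Agent.Helper4.FSS.Core2
import Pool.Agent.Helper4.FSS.Defs2
import Pool.Agent.Helper4.FSS.Q
import Pool.Agent.Helper14.FSS.C
import Pool.Agent.Helper46.FSS.PA
import Pool.Agent.Helper48.FSS.VG
import Pool.Agent.Helper55.FSS.UM
import Pool.Agent.Helper67.FSS.V
import Pool.Agent.Helper68.FSS.H

/-!
Groups determined by finite similarity structures embed in Thompson's group V: final assembly.
-/

set_option autoImplicit false

namespace Pool.Helper4.FSS

open Set

/-- Thompson's group `V = G_{2,1}`. -/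
def V : Subgroup (Equiv.Perm (Stream' Bool)) where
  carrier := {f | InV f}
  mul_mem' := fun {a b} ha hb => inV_of_inV' (inV'_mul (inV'_of_inV ha) (inV'_of_inV hb))
  one_mem' := inV_of_inV' inV'_one
  inv_mem' := fun {a} ha => inV_of_inV' (inV'_inv (inV'_of_inV ha))

/-- The group of a finite similarity structure: the homeomorphisms locally determined by it. -/
def FSStr.group {X : Type*} [MetricSpace X] [IsUltrametricDist X] (Sm : FSStr X) :
    Subgroup (X ≃ₜ X) where
  carrier := {γ | Sm.Loc γ}
  mul_mem' := fun {a b} ha hb => loc_mul Sm a b ha hb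
  one_mem' := loc_one Sm
  inv_mem' := fun {a} ha => loc_inv Sm a ha

/-- The group `V_(G,θ)`. -/
def VG {G : Type*} [Group G] (θ : G →* G) : Subgroup (Equiv.Perm (D × G)) where
  carrier := {F | InVG θ F}
  mul_mem' := fun {a b} ha hb => invg_mul θ a b ha hb
  one_mem' := invg_one θ
  inv_mem' := fun {a} ha => invg_inv θ a ha

theorem exists_data {S N : Type*} (X : Sys S N) (hX : X.Good) : Nonempty (Nat0 X) := by
  obtain ⟨Q, Q_sub, Q_fin, Q1, Q2, Q_nat⟩ := exists_Q X hX
  obtain ⟨pa, pa_mem, pa_nat, pa_fix, stab, surj⟩ := exists_pa X hX Q Q_sub Q1 Q2 Q_nat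
  obtain ⟨c, c_nat, c_part⟩ := exists_c X hX Q Q_sub Q_fin Q_nat pa pa_mem pa_nat stab surj
  exact ⟨{ Q := Q, pa := pa, c := c, Q_sub := Q_sub, Q_fin := Q_fin
           Q_ne := by
            intro B hB
            obtain ⟨x, hx⟩ := hX.pts_ne B hB
            obtain ⟨q, hq, -⟩ := Q1 B hB x hx
            exact ⟨q, hq⟩
           Q_nat := Q_nat
           Q_faith := by
            intro B hB h hh hq x hx
            obtain ⟨q, hqQ, hiff⟩ := Q1 B hB x hx
            exact (hiff h hh).1 (hq q hqQ)
           pa_mem := pa_mem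
           pa_nat := pa_nat
           pa_loop := fun B hB hBB r hr => pa_fix B hB B hBB r hr hr
           c_nat := c_nat
           c_part := c_part }⟩

theorem exists_rootCode {S N : Type*} (X : Sys S N) (D : Nat0 X) :
    ∃ rc : S → List Bool, RootCode D rc := by
  classical
  have hroot : X.IsNode X.root := ⟨0, rfl⟩
  have hfin := D.Q_fin _ hroot
  have hne := D.Q_ne _ hroot
  haveI : Finite (D.Q X.root) := hfin
  haveI := Fintype.ofFinite (D.Q X.root)
  have hcard : 1 ≤ Fintype.card (D.Q X.root) := by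
    haveI : Nonempty (D.Q X.root) := hne.to_subtype
    exact Fintype.card_pos
  obtain ⟨u, hu⟩ := exists_code (Fintype.card (D.Q X.root)) hcard
  let e := Fintype.equivFin (D.Q X.root)
  refine ⟨fun q => if h : q ∈ D.Q X.root then u (e ⟨q, h⟩) else [], ?_⟩
  intro η
  obtain ⟨i, ⟨ξ, hξ⟩, hun⟩ := hu η
  refine ⟨(e.symm i : S), ⟨(e.symm i).2, ξ, ?_⟩, ?_⟩
  · simp only [Subtype.coe_prop, dif_pos, Subtype.coe_eta, Equiv.apply_symm_apply]
    exact hξ
  · rintro q ⟨hq, ξ', hξ'⟩
    simp only [hq, dif_pos] at hξ'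
    have := hun (e ⟨q, hq⟩) ⟨ξ', hξ'⟩
    rw [← this, Equiv.symm_apply_apply]

/-- General theorem: a group of permutations locally given by a finite similarity structure on a
tree of sets embeds in Thompson's group `V`. -/
theorem embeds {S N : Type*} (X : Sys S N) (hX : X.Good) {K : Type*} [Group K]
    (ρ : K →* Equiv.Perm S) (hρ : Function.Injective ρ) (hloc : ∀ a, X.Loc (ρ a)) :
    ∃ φ : K →* V, Function.Injective φ := by
  obtain ⟨D⟩ := exists_data X hX
  obtain ⟨rc, hrc⟩ := exists_rootCode X D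
  obtain ⟨φ, hφ, hV⟩ := core hX D hrc ρ hρ hloc
  refine ⟨φ.codRestrict V (fun a => inV_of_inV' (hV a)), ?_⟩
  intro a b hab
  apply hφ
  have := congrArg Subtype.val hab
  exact this

theorem embeds_FSS {X : Type*} [MetricSpace X] [CompactSpace X] [IsUltrametricDist X]
    (Sm : FSStr X) : ∃ φ : Sm.group →* V, Function.Injective φ := by
  rcases isEmpty_or_nonempty X with hX | hX
  · refine ⟨1, ?_⟩
    intro a b _
    apply Subtype.ext
    ext x
    exact (hX.false x).elim
  · obtain ⟨Y, hY, hloc⟩ := exists_sys_of_FSStr Sm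
    let ρ : Sm.group →* Equiv.Perm X :=
      { toFun := fun γ => (γ : X ≃ₜ X).toEquiv
        map_one' := rfl
        map_mul' := fun _ _ => rfl }
    refine embeds Y hY ρ ?_ (fun a => hloc _ a.2)
    intro a b hab
    apply Subtype.ext
    ext x
    exact congrArg (fun f : Equiv.Perm X => f x) hab

theorem embeds_VG {G : Type*} [Group G] [Finite G] (θ : G →* G) :
    ∃ φ : VG θ →* V, Function.Injective φ := by
  obtain ⟨Y, hY, hloc⟩ := exists_sys_of_VG θ
  exact embeds Y hY (VG θ).subtype Subtype.val_injective (fun a => hloc _ a.2)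

end Pool.Helper4.FSS
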