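import Mathlib
import Pool.Agent.Helper4.FSS.Main

/-!
Groups locally determined by a finite similarity structure on a tree of subsets of a set embed in
Thompson's group V: the general form, without a metric.
-/

set_option autoImplicit false

namespace Pool.Helper4.FSS

open Set

/-- A tree of pieces of the set `S`: a family of nonempty subsets of `S` (the pieces) with `S`
among them, two pieces being disjoint or nested and every piece being contained in only finitely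
many pieces, such that every piece that contains a smaller piece is the union of finitely many
smaller pieces. -/
structure PieceTree (S : Type*) where
  pieces : Set (Set S)
  univ_mem : univ ∈ pieces
  nonempty : ∀ B ∈ pieces, B.Nonempty
  nested : ∀ A ∈ pieces, ∀ B ∈ pieces, (A ∩ B).Nonempty → A ⊆ B ∨ B ⊆ A
  above : ∀ B ∈ pieces, {A : Set S | A ∈ pieces ∧ B ⊆ A}.Finite
  split : ∀ B ∈ pieces, (∃ A ∈ pieces, A ⊂ B) →
    ∃ F : Set (Set S), F.Finite ∧ F ⊆ pieces ∧ (∀ A ∈ F, A ⊂ B) ∧ ⋃₀ F = B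

/-- A finite similarity structure on a tree of pieces: for any two pieces a finite (possibly
empty) set of bijections between them, closed under identities, inverses, compositions and
restrictions to smaller pieces (whose images have to be pieces). -/
structure PieceSim {S : Type*} (T : PieceTree S) where
  Sim : (B₁ B₂ : Set S) → Set (B₁ ≃ B₂)
  finite : ∀ B₁ ∈ T.pieces, ∀ B₂ ∈ T.pieces, (Sim B₁ B₂).Finite
  id_mem : ∀ B ∈ T.pieces, Equiv.refl B ∈ Sim B B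
  inv_mem : ∀ B₁ ∈ T.pieces, ∀ B₂ ∈ T.pieces, ∀ h ∈ Sim B₁ B₂, h.symm ∈ Sim B₂ B₁
  comp_mem : ∀ B₁ ∈ T.pieces, ∀ B₂ ∈ T.pieces, ∀ B₃ ∈ T.pieces,
    ∀ h ∈ Sim B₁ B₂, ∀ k ∈ Sim B₂ B₃, h.trans k ∈ Sim B₁ B₃
  restrict_mem : ∀ B₁ ∈ T.pieces, ∀ B₂ ∈ T.pieces, ∀ B₃ ∈ T.pieces,
    ∀ h ∈ Sim B₁ B₂, ∀ hs : B₃ ⊆ B₁, ∃ B₄ ∈ T.pieces, ∃ k ∈ Sim B₃ B₄,
      ∀ x : B₃, (k x : S) = h ⟨x, hs x.2⟩

namespace PieceSim

variable {S : Type*} {T : PieceTree S}

/-- the permutation `g` agrees on the piece `B` with a member of the similarity structure -/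
def Agrees (Sm : PieceSim T) (g : Equiv.Perm S) (B : Set S) : Prop :=
  ∃ B' ∈ T.pieces, ∃ h ∈ Sm.Sim B B', ∀ x : B, g x = (h x : S)

/-- `S` is a union of finitely many pieces on each of which the permutation `g` agrees with a
member of the similarity structure. -/
def Local (Sm : PieceSim T) (g : Equiv.Perm S) : Prop :=
  ∃ F : Set (Set S), F.Finite ∧ F ⊆ T.pieces ∧ ⋃₀ F = univ ∧ ∀ B ∈ F, Sm.Agrees g B

theorem agrees_one (Sm : PieceSim T) {B : Set S} (hB : B ∈ T.pieces) : Sm.Agrees 1 B :=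
  ⟨B, hB, Equiv.refl B, Sm.id_mem B hB, fun _ => rfl⟩

theorem image_eq {g : Equiv.Perm S} {B B' : Set S} (h : B ≃ B') (hg : ∀ x : B, g x = (h x : S)) :
    g '' B = B' := by
  ext y
  constructor
  · rintro ⟨x, hx, rfl⟩
    rw [hg ⟨x, hx⟩]
    exact (h ⟨x, hx⟩).2
  · intro hy
    refine ⟨h.symm ⟨y, hy⟩, (h.symm ⟨y, hy⟩).2, ?_⟩
    rw [hg (h.symm ⟨y, hy⟩), h.apply_symm_apply]

theorem agrees_image (Sm : PieceSim T) {g : Equiv.Perm S} {B : Set S} (hg : Sm.Agrees g B) :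
    g '' B ∈ T.pieces := by
  obtain ⟨B', hB', h, -, hgh⟩ := hg
  rw [image_eq h hgh]
  exact hB'

theorem agrees_restrict (Sm : PieceSim T) {g : Equiv.Perm S} {B C : Set S} (hB : B ∈ T.pieces)
    (hC : C ∈ T.pieces) (hCB : C ⊆ B) (hg : Sm.Agrees g B) : Sm.Agrees g C := by
  obtain ⟨B', hB', h, hh, hgh⟩ := hg
  obtain ⟨C', hC', k, hk, hkx⟩ := Sm.restrict_mem B hB B' hB' C hC h hh hCB
  refine ⟨C', hC', k, hk, fun x => ?_⟩
  rw [hkx x]
  exact hgh ⟨x, hCB x.2⟩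

theorem agrees_inv (Sm : PieceSim T) {g : Equiv.Perm S} {B : Set S} (hB : B ∈ T.pieces)
    (hg : Sm.Agrees g B) : Sm.Agrees g⁻¹ (g '' B) := by
  obtain ⟨B', hB', h, hh, hgh⟩ := hg
  rw [image_eq h hgh]
  refine ⟨B, hB, h.symm, Sm.inv_mem B hB B' hB' h hh, fun y => ?_⟩
  rw [Equiv.Perm.inv_eq_iff_eq, hgh (h.symm y), h.apply_symm_apply]

theorem agrees_mul (Sm : PieceSim T) {a b : Equiv.Perm S} {B : Set S} (hB : B ∈ T.pieces)
    (hb : Sm.Agrees b B) (ha : Sm.Agrees a (b '' B)) : Sm.Agrees (a * b) B := by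
  obtain ⟨B', hB', h, hh, hbh⟩ := hb
  rw [image_eq h hbh] at ha
  obtain ⟨B'', hB'', k, hk, hak⟩ := ha
  refine ⟨B'', hB'', h.trans k, Sm.comp_mem B hB B' hB' B'' hB'' h hh k hk, fun x => ?_⟩
  rw [Equiv.Perm.mul_apply, hbh x, hak (h x)]
  rfl

theorem local_one (Sm : PieceSim T) : Sm.Local 1 := by
  refine ⟨{univ}, finite_singleton _, ?_, by simp, ?_⟩
  · rintro B rfl
    exact T.univ_mem
  · rintro B rfl
    exact Sm.agrees_one T.univ_mem

theorem local_inv (Sm : PieceSim T) (a : Equiv.Perm S) (ha : Sm.Local a) : Sm.Local a⁻¹ := by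
  obtain ⟨F, hF, hFT, hcov, hag⟩ := ha
  refine ⟨(fun B => a '' B) '' F, hF.image _, ?_, ?_, ?_⟩
  · rintro _ ⟨B, hB, rfl⟩
    exact Sm.agrees_image (hag B hB)
  · apply eq_univ_of_forall
    intro y
    have hy : a⁻¹ y ∈ ⋃₀ F := by rw [hcov]; exact mem_univ _
    obtain ⟨B, hB, hyB⟩ := hy
    exact ⟨a '' B, ⟨B, hB, rfl⟩, a⁻¹ y, hyB, a.apply_symm_apply y⟩
  · rintro _ ⟨B, hB, rfl⟩
    exact Sm.agrees_inv (hFT hB) (hag B hB)

theorem local_mul (Sm : PieceSim T) (a b : Equiv.Perm S) (ha : Sm.Local a) (hb : Sm.Local b) :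
    Sm.Local (a * b) := by
  obtain ⟨F, hF, hFT, hcov, hag⟩ := ha
  obtain ⟨F', hF', hFT', hcov', hag'⟩ := hb
  have key : ∀ B ∈ F', ∀ A ∈ F, (b '' B ∩ A).Nonempty →
      B ∩ b ⁻¹' A ∈ T.pieces ∧ Sm.Agrees (a * b) (B ∩ b ⁻¹' A) := by
    intro B hB A hA hne
    have hBp := hFT' hB
    have hAp := hFT hA
    have hbB := hag' B hB
    rcases T.nested _ (Sm.agrees_image hbB) A hAp hne with hs | hs
    · have e : B ∩ b ⁻¹' A = B := inter_eq_left.2 (fun x hx => hs ⟨x, hx, rfl⟩)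
      rw [e]
      exact ⟨hBp, Sm.agrees_mul hBp hbB
        (Sm.agrees_restrict hAp (Sm.agrees_image hbB) hs (hag A hA))⟩
    · have hi : ∀ z, (b⁻¹ : Equiv.Perm S) (b z) = z := fun z => b.symm_apply_apply z
      have e : B ∩ b ⁻¹' A = (b⁻¹ : Equiv.Perm S) '' A := by
        ext x
        constructor
        · rintro ⟨-, hx⟩
          exact ⟨b x, hx, hi x⟩
        · rintro ⟨y, hy, rfl⟩
          obtain ⟨z, hz, rfl⟩ := hs hy
          refine ⟨?_, ?_⟩
          · rw [hi]; exact hz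
          · show b ((b⁻¹ : Equiv.Perm S) (b z)) ∈ A
            rw [hi]; exact hy
      have h1 : Sm.Agrees b⁻¹ A :=
        Sm.agrees_restrict (Sm.agrees_image hbB) hAp hs (Sm.agrees_inv hBp hbB)
      have h2 : (b⁻¹ : Equiv.Perm S) '' A ∈ T.pieces := Sm.agrees_image h1
      have h3 : Sm.Agrees b ((b⁻¹ : Equiv.Perm S) '' A) := by
        have := Sm.agrees_inv hAp h1
        rwa [inv_inv] at this
      have h4 : b '' ((b⁻¹ : Equiv.Perm S) '' A) = A := by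
        apply subset_antisymm
        · rintro _ ⟨_, ⟨y, hy, rfl⟩, rfl⟩
          have : b ((b⁻¹ : Equiv.Perm S) y) = y := b.apply_symm_apply y
          rwa [this]
        · intro y hy
          exact ⟨_, ⟨y, hy, rfl⟩, b.apply_symm_apply y⟩
      rw [e]
      exact ⟨h2, Sm.agrees_mul h2 h3 (by rw [h4]; exact hag A hA)⟩
  refine ⟨{C | ∃ B ∈ F', ∃ A ∈ F, (b '' B ∩ A).Nonempty ∧ C = B ∩ b ⁻¹' A}, ?_, ?_, ?_, ?_⟩
  · refine ((hF'.prod hF).image (fun p : Set S × Set S => p.1 ∩ b ⁻¹' p.2)).subset ?_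
    rintro C ⟨B, hB, A, hA, -, rfl⟩
    exact ⟨(B, A), ⟨hB, hA⟩, rfl⟩
  · rintro C ⟨B, hB, A, hA, hne, rfl⟩
    exact (key B hB A hA hne).1
  · apply eq_univ_of_forall
    intro x
    have hx : x ∈ ⋃₀ F' := by rw [hcov']; exact mem_univ _
    have hbx : b x ∈ ⋃₀ F := by rw [hcov]; exact mem_univ _
    obtain ⟨B, hB, hxB⟩ := hx
    obtain ⟨A, hA, hxA⟩ := hbx
    exact ⟨_, ⟨B, hB, A, hA, ⟨b x, ⟨x, hxB, rfl⟩, hxA⟩, rfl⟩, hxB, hxA⟩
  · rintro C ⟨B, hB, A, hA, hne, rfl⟩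
    exact (key B hB A hA hne).2

/-- The group of all permutations locally determined by the similarity structure. -/
def group (Sm : PieceSim T) : Subgroup (Equiv.Perm S) where
  carrier := {g | Sm.Local g}
  mul_mem' := fun {a b} ha hb => Sm.local_mul a b ha hb
  one_mem' := Sm.local_one
  inv_mem' := fun {a} ha => Sm.local_inv a ha

/-! ### the tree -/

/-- maximal proper subpieces -/
def IsMax (T : PieceTree S) (B C : Set S) : Prop :=
  C ∈ T.pieces ∧ C ⊂ B ∧ ∀ A ∈ T.pieces, A ⊂ B → C ⊆ A → A = C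

/-- children -/
def chl (T : PieceTree S) (B : Set S) : Set (Set S) :=
  {C | ((¬ ∃ A ∈ T.pieces, A ⊂ B) ∧ C = B) ∨ IsMax T B C}

/-- extension by the identity -/
noncomputable def ext (B B' : Set S) (h : B ≃ B') : S → S :=
  open Classical in fun y => if hy : y ∈ B then (h ⟨y, hy⟩ : S) else y

theorem ext_mem {B B' : Set S} (h : B ≃ B') {y : S} (hy : y ∈ B) :
    ext B B' h y = (h ⟨y, hy⟩ : S) := by
  unfold ext
  rw [dif_pos hy]

/-- the system -/
noncomputable def sys (Sm : PieceSim T) : Sys S (Set S) where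
  root := univ
  pts := id
  ch := chl T
  sim := fun B B' => (ext B B') '' (Sm.Sim B B')

theorem piece_ch {B C : Set S} (hB : B ∈ T.pieces) (hC : C ∈ chl T B) : C ∈ T.pieces := by
  rcases hC with ⟨-, rfl⟩ | h
  · exact hB
  · exact h.1

theorem ch_sub' {B C : Set S} (hC : C ∈ chl T B) : C ⊆ B := by
  rcases hC with ⟨-, rfl⟩ | h
  · exact subset_rfl
  · exact h.2.1.subset

theorem piece_lev (Sm : PieceSim T) (n : ℕ) : ∀ B ∈ Sm.sys.lev n, B ∈ T.pieces := by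
  induction n with
  | zero =>
    intro B hB
    have : B = univ := hB
    rw [this]
    exact T.univ_mem
  | succ n ih =>
    intro B hB
    obtain ⟨A, hA, hAB⟩ := hB
    exact piece_ch (ih A hA) hAB

theorem piece_node (Sm : PieceSim T) {B : Set S} (hB : Sm.sys.IsNode B) : B ∈ T.pieces := by
  obtain ⟨n, hn⟩ := hB
  exact Sm.piece_lev n B hn

theorem exists_max {B A : Set S} (hA : A ∈ T.pieces) (hAB : A ⊂ B) :
    ∃ C, IsMax T B C ∧ A ⊆ C := by
  have hfin : {C : Set S | (C ∈ T.pieces ∧ A ⊆ C) ∧ C ⊂ B}.Finite :=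
    (T.above A hA).subset (fun C hC => hC.1)
  obtain ⟨C, hAC, hCmax⟩ := hfin.exists_le_maximal (a := A) ⟨⟨hA, subset_rfl⟩, hAB⟩
  refine ⟨C, ⟨hCmax.prop.1.1, hCmax.prop.2, ?_⟩, hAC⟩
  intro D hD hDB hCD
  exact hCmax.eq_of_ge (show D ∈ {C : Set S | (C ∈ T.pieces ∧ A ⊆ C) ∧ C ⊂ B} from
    ⟨⟨hD, hAC.trans hCD⟩, hDB⟩) hCD

theorem max_unique {B C C' : Set S} (hC : IsMax T B C) (hC' : IsMax T B C')
    (hne : (C ∩ C').Nonempty) : C = C' := by
  rcases T.nested C hC.1 C' hC'.1 hne with h | h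
  · exact (hC.2.2 C' hC'.1 hC'.2.1 h).symm
  · exact hC'.2.2 C hC.1 hC.2.1 h

theorem ch_part' {B : Set S} (hB : B ∈ T.pieces) {x : S} (hx : x ∈ B) :
    ∃! C, C ∈ chl T B ∧ x ∈ C := by
  by_cases hn : ∃ A ∈ T.pieces, A ⊂ B
  · obtain ⟨F, -, hFT, hFB, hcov⟩ := T.split B hB hn
    have hx' : x ∈ ⋃₀ F := by rw [hcov]; exact hx
    obtain ⟨A, hA, hxA⟩ := hx'
    obtain ⟨C, hC, hAC⟩ := exists_max (hFT hA) (hFB A hA)
    refine ⟨C, ⟨Or.inr hC, hAC hxA⟩, ?_⟩
    rintro C' ⟨⟨hn', _⟩ | hC', hxC'⟩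
    · exact absurd hn hn'
    · exact max_unique hC' hC ⟨x, hxC', hAC hxA⟩
  · refine ⟨B, ⟨Or.inl ⟨hn, rfl⟩, hx⟩, ?_⟩
    rintro C' ⟨⟨_, rfl⟩ | hC', _⟩
    · rfl
    · exact absurd ⟨C', hC'.1, hC'.2.1⟩ hn

theorem ch_fin' {B : Set S} (hB : B ∈ T.pieces) : (chl T B).Finite := by
  by_cases hn : ∃ A ∈ T.pieces, A ⊂ B
  · obtain ⟨F, hF, hFT, hFB, hcov⟩ := T.split B hB hn
    refine (hF.image (fun A => ⋃₀ {C | IsMax T B C ∧ A ⊆ C})).subset ?_
    rintro C (⟨hn', _⟩ | hC)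
    · exact absurd hn hn'
    · obtain ⟨x, hx⟩ := T.nonempty C hC.1
      have hx' : x ∈ ⋃₀ F := by rw [hcov]; exact hC.2.1.subset hx
      obtain ⟨A, hA, hxA⟩ := hx'
      have hAC : A ⊆ C := by
        rcases T.nested A (hFT hA) C hC.1 ⟨x, hxA, hx⟩ with h | h
        · exact h
        · rw [hC.2.2 A (hFT hA) (hFB A hA) h]
      refine ⟨A, hA, ?_⟩
      apply subset_antisymm
      · rintro y ⟨C', ⟨hC', hAC'⟩, hy⟩
        rwa [max_unique hC hC' ⟨x, hx, hAC' hxA⟩]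
      · intro y hy
        exact ⟨C, ⟨hC, hAC⟩, hy⟩
  · refine (finite_singleton B).subset ?_
    rintro C (⟨_, rfl⟩ | hC)
    · rfl
    · exact absurd ⟨C, hC.1, hC.2.1⟩ hn

/-- the image of a subpiece -/
theorem restr (Sm : PieceSim T) {B B' C : Set S} (hB : B ∈ T.pieces) (hB' : B' ∈ T.pieces)
    (hC : C ∈ T.pieces) {h : B ≃ B'} (hh : h ∈ Sm.Sim B B') (hCB : C ⊆ B) :
    ext B B' h '' C ∈ T.pieces ∧ ∃ k ∈ Sm.Sim C (ext B B' h '' C), ∀ x : C,
      (k x : S) = ext B B' h x := by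
  obtain ⟨C', hC', k, hk, hkx⟩ := Sm.restrict_mem B hB B' hB' C hC h hh hCB
  have hkx' : ∀ x : C, (k x : S) = ext B B' h x := by
    intro x
    rw [hkx x, ext_mem h (hCB x.2)]
  have e : ext B B' h '' C = C' := by
    ext y
    constructor
    · rintro ⟨x, hx, rfl⟩
      rw [← hkx' ⟨x, hx⟩]
      exact (k ⟨x, hx⟩).2
    · intro hy
      refine ⟨k.symm ⟨y, hy⟩, (k.symm ⟨y, hy⟩).2, ?_⟩
      rw [← hkx' (k.symm ⟨y, hy⟩), k.apply_symm_apply]
  rw [e]
  exact ⟨hC', k, hk, hkx'⟩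

theorem ext_symm {B B' : Set S} (h : B ≃ B') {x : S} (hx : x ∈ B) :
    ext B' B h.symm (ext B B' h x) = x := by
  rw [ext_mem h hx, ext_mem h.symm (h ⟨x, hx⟩).2]
  exact congrArg Subtype.val (h.symm_apply_apply ⟨x, hx⟩)

theorem ext_maps {B B' : Set S} (h : B ≃ B') {x : S} (hx : x ∈ B) : ext B B' h x ∈ B' := by
  rw [ext_mem h hx]
  exact (h ⟨x, hx⟩).2

theorem ext_image_symm {B B' C : Set S} (h : B ≃ B') (hC : C ⊆ B) :
    ext B' B h.symm '' (ext B B' h '' C) = C := by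
  rw [image_image]
  apply subset_antisymm
  · rintro _ ⟨x, hx, rfl⟩
    show ext B' B h.symm (ext B B' h x) ∈ C
    rwa [ext_symm h (hC hx)]
  · intro x hx
    exact ⟨x, hx, ext_symm h (hC hx)⟩

theorem ext_image {B B' : Set S} (h : B ≃ B') : ext B B' h '' B = B' := by
  apply subset_antisymm
  · rintro _ ⟨x, hx, rfl⟩
    exact ext_maps h hx
  · intro y hy
    refine ⟨h.symm ⟨y, hy⟩, (h.symm ⟨y, hy⟩).2, ?_⟩
    rw [ext_mem h (h.symm ⟨y, hy⟩).2]
    exact congrArg Subtype.val (h.apply_symm_apply ⟨y, hy⟩)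

theorem ssub_image {B B' C : Set S} {h : B ≃ B'} (hCB : C ⊂ B) :
    ext B B' h '' C ⊂ B' := by
  have h1 : ext B B' h '' C ⊆ B' := by
    rintro _ ⟨x, hx, rfl⟩
    exact ext_maps h (hCB.subset hx)
  refine h1.ssubset_of_ne ?_
  intro e
  have h2 := ext_image_symm h hCB.subset
  rw [e] at h2
  have h3 : ext B' B h.symm '' B' = B := ext_image h.symm
  rw [h3] at h2
  exact hCB.ne h2.symm

theorem ch_res' (Sm : PieceSim T) {B B' C : Set S} (hB : B ∈ T.pieces) (hB' : B' ∈ T.pieces)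
    {h : B ≃ B'} (hh : h ∈ Sm.Sim B B') (hC : C ∈ chl T B) : ext B B' h '' C ∈ chl T B' := by
  have hCp := piece_ch hB hC
  have hinv := Sm.inv_mem B hB B' hB' h hh
  rcases hC with ⟨hn, rfl⟩ | hC
  · refine Or.inl ⟨?_, ext_image h⟩
    rintro ⟨A, hA, hAB⟩
    exact hn ⟨_, (Sm.restr hB' hB hA hinv hAB.subset).1, ssub_image hAB⟩
  · refine Or.inr ⟨(Sm.restr hB hB' hCp hh hC.2.1.subset).1, ssub_image hC.2.1, ?_⟩
    intro A hA hAB hCA
    have h1 := hC.2.2 _ (Sm.restr hB' hB hA hinv hAB.subset).1 (ssub_image hAB)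
      (by
        have h2 := image_mono (f := ext B' B h.symm) hCA
        rwa [ext_image_symm h hC.2.1.subset] at h2)
    have h3 : ext B B' h '' (ext B' B h.symm '' A) = A := by
      have := ext_image_symm h.symm hAB.subset
      rwa [h.symm_symm] at this
    rw [← h3, h1]

theorem good (Sm : PieceSim T) : Sm.sys.Good where
  root_pts := rfl
  pts_ne := fun B hB => T.nonempty B (Sm.piece_node hB)
  ch_sub := fun B _ C hC => ch_sub' hC
  ch_part := fun B hB x hx => ch_part' (Sm.piece_node hB) hx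
  ch_fin := fun B hB => ch_fin' (Sm.piece_node hB)
  ch_loop := fun B _ C _ h => h
  maps := by
    rintro B B' hB hB' _ ⟨h, hh, rfl⟩
    refine ⟨?_, ?_, ?_⟩
    · intro y hy
      rw [ext_mem h hy]
      exact (h ⟨y, hy⟩).2
    · intro a ha b hb hab
      rw [ext_mem h ha, ext_mem h hb] at hab
      exact congrArg Subtype.val (h.injective (Subtype.ext hab))
    · intro z hz
      refine ⟨h.symm ⟨z, hz⟩, (h.symm ⟨z, hz⟩).2, ?_⟩
      rw [ext_mem h (h.symm ⟨z, hz⟩).2]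
      exact congrArg Subtype.val (h.apply_symm_apply ⟨z, hz⟩)
  fin := fun B hB => (Sm.finite B (Sm.piece_node hB) B (Sm.piece_node hB)).image _
  one := fun B hB => ⟨_, ⟨Equiv.refl B, Sm.id_mem B (Sm.piece_node hB), rfl⟩,
    fun x hx => by
      have hx : x ∈ B := hx
      rw [ext_mem (Equiv.refl B) hx]
      rfl⟩
  inv := by
    rintro B B' hB hB' _ ⟨h, hh, rfl⟩
    refine ⟨_, ⟨h.symm, Sm.inv_mem B (Sm.piece_node hB) B' (Sm.piece_node hB') h hh, rfl⟩, ?_⟩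
    intro x hx
    exact ext_symm h hx
  comp := by
    rintro B B' B'' hB hB' hB'' _ ⟨h, hh, rfl⟩ _ ⟨k, hk, rfl⟩
    refine ⟨_, ⟨h.trans k, Sm.comp_mem B (Sm.piece_node hB) B' (Sm.piece_node hB')
      B'' (Sm.piece_node hB'') h hh k hk, rfl⟩, ?_⟩
    intro x hx
    have hx : x ∈ B := hx
    rw [ext_mem h hx, ext_mem k (h ⟨x, hx⟩).2, ext_mem (h.trans k) hx]
    rfl
  res := by
    rintro B B' hB hB' _ ⟨h, hh, rfl⟩ C hC
    have hBp := Sm.piece_node hB
    have hBp' := Sm.piece_node hB'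
    obtain ⟨-, k, hk, hkx⟩ := Sm.restr hBp hBp' (piece_ch hBp hC) hh (ch_sub' hC)
    refine ⟨_, Sm.ch_res' hBp hBp' hh hC, _, ⟨k, hk, rfl⟩, ?_⟩
    intro x hx
    have hx : x ∈ C := hx
    rw [ext_mem k hx]
    exact hkx ⟨x, hx⟩

/-- every piece occurs at some level -/
theorem piece_level (Sm : PieceSim T) (k : ℕ) : ∀ B ∈ T.pieces,
    {A : Set S | A ∈ T.pieces ∧ B ⊆ A}.ncard = k → ∃ m, B ∈ Sm.sys.lev m := by
  induction k using Nat.strong_induction_on with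
  | _ k ih =>
    intro B hB hk
    by_cases hu : B = univ
    · exact ⟨0, hu⟩
    · have hfin : {A : Set S | (A ∈ T.pieces ∧ B ⊆ A) ∧ B ≠ A}.Finite :=
        (T.above B hB).subset (fun A hA => hA.1)
      obtain ⟨P, -, hP⟩ := hfin.exists_le_minimal (a := univ) ⟨⟨T.univ_mem, subset_univ _⟩, hu⟩
      have hPp := hP.prop.1.1
      have hBP : B ⊂ P := hP.prop.1.2.ssubset_of_ne hP.prop.2
      have hlt : {A : Set S | A ∈ T.pieces ∧ P ⊆ A}.ncard < k := by
        rw [← hk]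
        apply ncard_lt_ncard _ (T.above B hB)
        refine ⟨fun A hA => ⟨hA.1, hBP.subset.trans hA.2⟩, fun hc => ?_⟩
        have := hc (show B ∈ {A : Set S | A ∈ T.pieces ∧ B ⊆ A} from ⟨hB, subset_rfl⟩)
        exact hBP.not_subset this.2
      obtain ⟨m, hm⟩ := ih _ hlt P hPp rfl
      refine ⟨m + 1, P, hm, Or.inr ⟨hB, hBP, ?_⟩⟩
      intro A hA hAP hBA
      by_contra hne
      exact hAP.ne (hP.eq_of_le (show A ∈ {A : Set S | (A ∈ T.pieces ∧ B ⊆ A) ∧ B ≠ A} from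
        ⟨⟨hA, hBA⟩, fun e => hne e.symm⟩) hAP.subset)

theorem loc_of_local (Sm : PieceSim T) (g : Equiv.Perm S) (hg : Sm.Local g) : Sm.sys.Loc g := by
  have hX := Sm.good
  obtain ⟨F, hF, hFT, hcov, hag⟩ := hg
  have hlev : ∀ B ∈ F, ∃ m, B ∈ Sm.sys.lev m := fun B hB => Sm.piece_level _ B (hFT hB) rfl
  choose! lv hlv using hlev
  obtain ⟨n, hn⟩ := (hF.image lv).bddAbove
  refine ⟨n, fun C hC => ?_⟩
  have hCp := Sm.piece_lev n C hC
  obtain ⟨x, hx⟩ := T.nonempty C hCp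
  have hx' : x ∈ ⋃₀ F := by rw [hcov]; exact mem_univ _
  obtain ⟨B, hB, hxB⟩ := hx'
  have h1 : nd hX (lv B) x = B := nd_eq hX (hlv B hB) hxB
  have h2 : nd hX n x = C := nd_eq hX hC hx
  have h3 : C ⊆ B := by
    have := pts_anti hX (hn ⟨B, hB, rfl⟩ : lv B ≤ n) x
    rw [h1, h2] at this
    exact this
  obtain ⟨C', hC', k, hk, hkx⟩ := Sm.agrees_restrict (hFT hB) hCp h3 (hag B hB)
  obtain ⟨m, hm⟩ := Sm.piece_level _ C' hC' rfl
  refine ⟨m, C', hm, _, ⟨k, hk, rfl⟩, ?_⟩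
  intro y hy
  have hy : y ∈ C := hy
  rw [ext_mem k hy]
  exact hkx ⟨y, hy⟩

end PieceSim

/-- The group of all permutations of a set locally determined by a finite similarity structure on
a tree of pieces embeds in Thompson's group `V`. -/
theorem embeds_pieces {S : Type*} {T : PieceTree S} (Sm : PieceSim T) :
    ∃ φ : Sm.group →* V, Function.Injective φ :=
  embeds Sm.sys Sm.good Sm.group.subtype Subtype.val_injective
    (fun a => Sm.loc_of_local _ a.2)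

end Pool.Helper4.FSS
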